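import Mathlib

/-! An abstract scheme for operators without the weak maximizing property. -/

namespace Pool.Agent.L0h84.WM

open Filter Topology

variable {𝕜 : Type*} [RCLike 𝕜]
variable {X : Type*} [NormedAddCommGroup X] [NormedSpace 𝕜 X]
variable {Y : Type*} [NormedAddCommGroup Y] [NormedSpace 𝕜 Y]

/-- The data on the range side. -/
structure Rng (𝕜 : Type*) [RCLike 𝕜] (Y : Type*) [NormedAddCommGroup Y] [NormedSpace 𝕜 Y] where
  one : Y
  rho : ℕ → Y
  U : Y →L[𝕜] Y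
  K : ℝ
  K0 : 0 < K
  norm_one : ‖one‖ = 1
  rho_ne : ∀ n, rho n ≠ 0
  norm_U : ∀ y, ‖U y‖ = ‖y‖
  U_one : U one = one
  U_rho : ∀ n, U (rho n) = rho (n + 1)
  khin : ∀ (S : Finset ℕ) (b : ℕ → 𝕜), ‖∑ n ∈ S, b n • rho n‖ ≤ K * √(∑ n ∈ S, ‖b n‖ ^ 2)
  flip : ∀ (N : ℕ) (a : 𝕜) (b : ℕ → 𝕜) (m : ℕ), m < N →
    ‖a • one + ∑ n ∈ Finset.range N, b n • rho n - (2 : 𝕜) • b m • rho m‖ =
      ‖a • one + ∑ n ∈ Finset.range N, b n • rho n‖
  strict : ∀ x y : Y, x ≠ y → ‖x‖ = ‖y‖ → ∀ s : ℝ, 0 < s → s < 1 →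
    ‖(s : 𝕜) • x + ((1 - s : ℝ) : 𝕜) • y‖ < ‖x‖

/-- The data on the domain side. -/
structure Dom (𝕜 : Type*) [RCLike 𝕜] (X : Type*) [NormedAddCommGroup X] [NormedSpace 𝕜 X] where
  E0 : X →L[𝕜] 𝕜
  phi : ℕ → X →L[𝕜] 𝕜
  U : X → X
  K : ℝ
  K0 : 0 < K
  norm_E0 : ∀ f, ‖E0 f‖ ≤ ‖f‖
  norm_U : ∀ f, ‖U f‖ = ‖f‖
  E0_U : ∀ f, E0 (U f) = E0 f
  phi_zero : ∀ f, phi 0 (U f) = 0
  phi_succ : ∀ n f, phi (n + 1) (U f) = phi n f
  khin : ∀ (S : Finset ℕ) (f : X), √(∑ n ∈ S, ‖phi n f‖ ^ 2) ≤ K * ‖f‖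

section rng

variable (R : Rng 𝕜 Y)

lemma Rng.summable [CompleteSpace Y] {b : ℕ → 𝕜} (hb : Summable fun n => ‖b n‖ ^ 2) :
    Summable fun n => b n • R.rho n := by
  rw [summable_iff_vanishing_norm] at hb ⊢
  intro ε hε
  have hK := R.K0
  obtain ⟨S, hS⟩ := hb ((ε / R.K) ^ 2) (by positivity)
  refine ⟨S, fun T hT => ?_⟩
  have h1 := hS T hT
  rw [Real.norm_eq_abs, abs_of_nonneg (Finset.sum_nonneg fun _ _ => by positivity)] at h1
  refine lt_of_le_of_lt (R.khin T b) ?_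
  have h2 : √(∑ n ∈ T, ‖b n‖ ^ 2) < ε / R.K := by
    rw [Real.sqrt_lt' (by positivity)]; exact h1
  calc R.K * √(∑ n ∈ T, ‖b n‖ ^ 2) < R.K * (ε / R.K) := by gcongr
    _ = ε := by field_simp

lemma Rng.norm_tsum_le [CompleteSpace Y] {b : ℕ → 𝕜} {M : ℝ} (hM : 0 ≤ M)
    (hb : ∀ S : Finset ℕ, √(∑ n ∈ S, ‖b n‖ ^ 2) ≤ M) :
    ‖∑' n, b n • R.rho n‖ ≤ R.K * M := by
  have hK := R.K0
  have hs : Summable fun n => ‖b n‖ ^ 2 := by
    refine summable_of_sum_le (fun _ => by positivity) (c := M ^ 2) fun S => ?_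
    have := hb S
    rwa [Real.sqrt_le_left hM] at this
  refine le_of_tendsto (R.summable hs).hasSum.norm (Eventually.of_forall fun S => ?_)
  refine (R.khin S b).trans ?_
  gcongr
  exact hb S

/-- Contraction principle for finite sums. -/
lemma Rng.contract (N : ℕ) (a : 𝕜) (b : ℕ → 𝕜) (s : ℕ → ℝ) (hs : ∀ n, 0 ≤ s n)
    (hs1 : ∀ n, s n ≤ 1) :
    ‖a • R.one + ∑ n ∈ Finset.range N, ((s n : 𝕜) * b n) • R.rho n‖ ≤
      ‖a • R.one + ∑ n ∈ Finset.range N, b n • R.rho n‖ := by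
  have key : ∀ m ≤ N, ‖a • R.one + ∑ n ∈ Finset.range N,
      (if n < m then (s n : 𝕜) * b n else b n) • R.rho n‖ ≤
      ‖a • R.one + ∑ n ∈ Finset.range N, b n • R.rho n‖ := by
    intro m
    induction m with
    | zero => intro _; simp
    | succ m ih =>
      intro hm
      have hmN : m < N := hm
      refine le_trans ?_ (ih hmN.le)
      obtain ⟨b', hb'⟩ : ∃ b' : ℕ → 𝕜, ∀ n, b' n = if n < m then (s n : 𝕜) * b n else b n :=
        ⟨_, fun _ => rfl⟩
      obtain ⟨x, hx⟩ : ∃ x, x = a • R.one + ∑ n ∈ Finset.range N, b' n • R.rho n := ⟨_, rfl⟩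
      have hfl := R.flip N a b' m hmN
      rw [← hx] at hfl
      have e1 : a • R.one + ∑ n ∈ Finset.range N,
          (if n < m + 1 then (s n : 𝕜) * b n else b n) • R.rho n =
          (((1 + s m) / 2 : ℝ) : 𝕜) • x +
          (((1 - s m) / 2 : ℝ) : 𝕜) • (x - (2 : 𝕜) • b' m • R.rho m) := by
        have e2 : ∑ n ∈ Finset.range N, (if n < m + 1 then (s n : 𝕜) * b n else b n) • R.rho n =
            ∑ n ∈ Finset.range N, b' n • R.rho n - ((1 - s m : ℝ) : 𝕜) • b' m • R.rho m := by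
          rw [← Finset.add_sum_erase _ _ (Finset.mem_range.2 hmN),
            ← Finset.add_sum_erase (Finset.range N) (fun n => b' n • R.rho n)
              (Finset.mem_range.2 hmN)]
          have e3 : ∑ n ∈ (Finset.range N).erase m,
              (if n < m + 1 then (s n : 𝕜) * b n else b n) • R.rho n =
              ∑ n ∈ (Finset.range N).erase m, b' n • R.rho n := by
            refine Finset.sum_congr rfl fun n hn => ?_
            rw [Finset.mem_erase] at hn
            congr 1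
            rw [hb']
            by_cases h : n < m
            · rw [if_pos h, if_pos (by omega)]
            · rw [if_neg h, if_neg (by omega)]
          have hbm : b' m = b m := by rw [hb', if_neg (lt_irrefl m)]
          rw [e3, if_pos (Nat.lt_succ_self m), hbm]
          have : ((1 - s m : ℝ) : 𝕜) • b m • R.rho m = b m • R.rho m -
              ((s m : 𝕜) * b m) • R.rho m := by
            rw [smul_smul, ← sub_smul]; congr 1; push_cast; ring
          rw [this]; abel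
        rw [e2]
        have e4 : a • R.one + (∑ n ∈ Finset.range N, b' n • R.rho n -
            ((1 - s m : ℝ) : 𝕜) • b' m • R.rho m) = x - ((1 - s m : ℝ) : 𝕜) • b' m • R.rho m := by
          rw [hx]; abel
        rw [e4, smul_sub, smul_smul _ (2 : 𝕜)]
        have e5 : (((1 - s m) / 2 : ℝ) : 𝕜) * 2 = ((1 - s m : ℝ) : 𝕜) := by push_cast; ring
        rw [e5]
        have e6 : x = (((1 + s m) / 2 : ℝ) : 𝕜) • x + (((1 - s m) / 2 : ℝ) : 𝕜) • x := by
          rw [← add_smul, ← RCLike.ofReal_add]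
          have : (1 + s m) / 2 + (1 - s m) / 2 = 1 := by ring
          rw [this, RCLike.ofReal_one, one_smul]
        conv_lhs => rw [e6]
        abel
      have e7 : ∑ n ∈ Finset.range N, (if n < m then (s n : 𝕜) * b n else b n) • R.rho n =
          ∑ n ∈ Finset.range N, b' n • R.rho n :=
        Finset.sum_congr rfl fun n _ => by rw [hb']
      rw [e1, e7, ← hx]
      have h1 := hs m
      have h2 := hs1 m
      refine (norm_add_le _ _).trans ?_
      rw [norm_smul, norm_smul, hfl, RCLike.norm_ofReal, RCLike.norm_ofReal,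
        abs_of_nonneg (by linarith), abs_of_nonneg (by linarith)]
      have : (1 + s m) / 2 * ‖x‖ + (1 - s m) / 2 * ‖x‖ = ‖x‖ := by ring
      rw [this]
  have h := key N le_rfl
  have e1 : ∑ n ∈ Finset.range N, (if n < N then (s n : 𝕜) * b n else b n) • R.rho n =
      ∑ n ∈ Finset.range N, ((s n : 𝕜) * b n) • R.rho n := by
    refine Finset.sum_congr rfl fun n hn => ?_
    rw [if_pos (Finset.mem_range.1 hn)]
  rwa [e1] at h

/-- Contraction principle for infinite sums. -/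
lemma Rng.contract' (a : 𝕜) (b b' : ℕ → 𝕜) (h : Summable fun n => b n • R.rho n)
    (h' : Summable fun n => b' n • R.rho n) (s : ℕ → ℝ) (hs : ∀ n, 0 ≤ s n)
    (hs1 : ∀ n, s n ≤ 1) (hbb : ∀ n, b n = (s n : 𝕜) * b' n) :
    ‖a • R.one + ∑' n, b n • R.rho n‖ ≤ ‖a • R.one + ∑' n, b' n • R.rho n‖ := by
  refine le_of_tendsto_of_tendsto'
    ((tendsto_const_nhds.add h.hasSum.tendsto_sum_nat).norm)
    ((tendsto_const_nhds.add h'.hasSum.tendsto_sum_nat).norm) fun N => ?_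
  have := R.contract N a b' s hs hs1
  refine le_trans (le_of_eq ?_) this
  congr 2
  exact Finset.sum_congr rfl fun n _ => by rw [hbb]

lemma Rng.flip' (a : 𝕜) (b : ℕ → 𝕜) (h : Summable fun n => b n • R.rho n) (m : ℕ) :
    ‖a • R.one + ∑' n, b n • R.rho n - (2 : 𝕜) • b m • R.rho m‖ =
      ‖a • R.one + ∑' n, b n • R.rho n‖ := by
  have h1 : Tendsto (fun N => ‖a • R.one + ∑ n ∈ Finset.range N, b n • R.rho n -
      (2 : 𝕜) • b m • R.rho m‖) atTop
      (𝓝 ‖a • R.one + ∑' n, b n • R.rho n - (2 : 𝕜) • b m • R.rho m‖) :=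
    ((tendsto_const_nhds.add h.hasSum.tendsto_sum_nat).sub tendsto_const_nhds).norm
  have h2 : Tendsto (fun N => ‖a • R.one + ∑ n ∈ Finset.range N, b n • R.rho n‖) atTop
      (𝓝 ‖a • R.one + ∑' n, b n • R.rho n‖) :=
    (tendsto_const_nhds.add h.hasSum.tendsto_sum_nat).norm
  refine tendsto_nhds_unique (h1.congr' ?_) h2
  filter_upwards [eventually_gt_atTop m] with N hN
  exact R.flip N a b m hN

/-- Strict contraction. -/
lemma Rng.contract_lt (a : 𝕜) (b b' : ℕ → 𝕜) (h : Summable fun n => b n • R.rho n)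
    (h' : Summable fun n => b' n • R.rho n) (s : ℕ → ℝ) (hs : ∀ n, 0 ≤ s n)
    (hs1 : ∀ n, s n < 1) (hbb : ∀ n, b n = (s n : 𝕜) * b' n) (m : ℕ) (hm : b' m ≠ 0) :
    ‖a • R.one + ∑' n, b n • R.rho n‖ < ‖a • R.one + ∑' n, b' n • R.rho n‖ := by
  classical
  -- change only the coordinate `m`
  obtain ⟨b2, hb2⟩ : ∃ b2 : ℕ → 𝕜, ∀ n, b2 n = if n = m then (s m : 𝕜) * b' m else b' n :=
    ⟨_, fun _ => rfl⟩
  have hdiff : ∀ n, b2 n • R.rho n = b' n • R.rho n -
      (if n = m then ((1 - s m : ℝ) : 𝕜) • b' m • R.rho m else 0) := by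
    intro n
    rw [hb2]
    split_ifs with hn
    · rw [hn, smul_smul, ← sub_smul]; congr 1; push_cast; ring
    · rw [sub_zero]
  have hs2 : HasSum (fun n => b2 n • R.rho n) (∑' n, b' n • R.rho n -
      ((1 - s m : ℝ) : 𝕜) • b' m • R.rho m) := by
    have h1 := h'.hasSum.sub (hasSum_ite_eq m (((1 - s m : ℝ) : 𝕜) • b' m • R.rho m))
    have h2 : (fun n => b2 n • R.rho n) = fun n => b' n • R.rho n -
      (if n = m then ((1 - s m : ℝ) : 𝕜) • b' m • R.rho m else 0) := funext hdiff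
    rw [h2]; exact h1
  obtain ⟨x, hx⟩ : ∃ x, x = a • R.one + ∑' n, b' n • R.rho n := ⟨_, rfl⟩
  have hfl := R.flip' a b' h' m
  rw [← hx] at hfl
  have hsm := hs m
  have hsm1 := hs1 m
  have e1 : a • R.one + ∑' n, b2 n • R.rho n = (((1 + s m) / 2 : ℝ) : 𝕜) • x +
      ((1 - (1 + s m) / 2 : ℝ) : 𝕜) • (x - (2 : 𝕜) • b' m • R.rho m) := by
    rw [hs2.tsum_eq]
    have e4 : a • R.one + (∑' n, b' n • R.rho n -
        ((1 - s m : ℝ) : 𝕜) • b' m • R.rho m) = x - ((1 - s m : ℝ) : 𝕜) • b' m • R.rho m := by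
      rw [hx]; abel
    rw [e4, smul_sub, smul_smul _ (2 : 𝕜)]
    have e5 : ((1 - (1 + s m) / 2 : ℝ) : 𝕜) * 2 = ((1 - s m : ℝ) : 𝕜) := by push_cast; ring
    rw [e5]
    have e6 : x = (((1 + s m) / 2 : ℝ) : 𝕜) • x + ((1 - (1 + s m) / 2 : ℝ) : 𝕜) • x := by
      rw [← add_smul, ← RCLike.ofReal_add]
      have : (1 + s m) / 2 + (1 - (1 + s m) / 2) = 1 := by ring
      rw [this, RCLike.ofReal_one, one_smul]
    conv_lhs => rw [e6]
    abel
  have hne : x ≠ x - (2 : 𝕜) • b' m • R.rho m := by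
    intro hcon
    have h1 : (2 : 𝕜) • b' m • R.rho m = 0 := by
      have := sub_eq_self.1 hcon.symm
      exact this
    rcases smul_eq_zero.1 h1 with h2 | h2
    · exact two_ne_zero h2
    · rcases smul_eq_zero.1 h2 with h3 | h3
      · exact hm h3
      · exact R.rho_ne m h3
  have hlt : ‖a • R.one + ∑' n, b2 n • R.rho n‖ < ‖x‖ := by
    rw [e1]
    exact R.strict _ _ hne hfl.symm _ (by linarith) (by linarith)
  rw [← hx]
  refine lt_of_le_of_lt ?_ hlt
  refine R.contract' a b b2 h hs2.summable (fun n => if n = m then 1 else s n) ?_ ?_ ?_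
  · intro n; split_ifs
    · exact zero_le_one
    · exact hs n
  · intro n; split_ifs
    · exact le_rfl
    · exact (hs1 n).le
  · intro n
    rw [hbb, hb2]
    by_cases hn : n = m
    · rw [if_pos hn, if_pos hn, hn, RCLike.ofReal_one, one_mul]
    · rw [if_neg hn, if_neg hn]

end rng

section ops

variable (R : Rng 𝕜 Y) (Q : Dom 𝕜 X)

/-- the coefficient sequences of the operator -/
lemma coef_bound {c : ℕ → ℝ} {C : ℝ} (hC : 0 ≤ C) (hc : ∀ n, |c n| ≤ C) (f : X) (S : Finset ℕ) :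
    √(∑ n ∈ S, ‖(c n : 𝕜) * Q.phi n f‖ ^ 2) ≤ C * (Q.K * ‖f‖) := by
  have h1 : √(∑ n ∈ S, ‖(c n : 𝕜) * Q.phi n f‖ ^ 2) ≤ √(C ^ 2 * ∑ n ∈ S, ‖Q.phi n f‖ ^ 2) := by
    apply Real.sqrt_le_sqrt
    rw [Finset.mul_sum]
    refine Finset.sum_le_sum fun n _ => ?_
    rw [norm_mul, mul_pow, RCLike.norm_ofReal]
    have : |c n| ^ 2 ≤ C ^ 2 := by
      have := hc n
      have := abs_nonneg (c n)
      gcongr
    gcongr
  refine h1.trans ?_
  rw [Real.sqrt_mul (by positivity), Real.sqrt_sq hC]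
  gcongr
  exact Q.khin S f

lemma coef_summable {c : ℕ → ℝ} {C : ℝ} (hC : 0 ≤ C) (hc : ∀ n, |c n| ≤ C) (f : X) :
    Summable fun n => ‖(c n : 𝕜) * Q.phi n f‖ ^ 2 := by
  have hK := Q.K0
  refine summable_of_sum_le (fun _ => by positivity) (c := (C * (Q.K * ‖f‖)) ^ 2) fun S => ?_
  have := coef_bound Q hC hc f S
  rwa [Real.sqrt_le_left (by positivity)] at this

variable [CompleteSpace Y]

/-- the operators -/
lemma exists_op {c : ℕ → ℝ} {C : ℝ} (hC : 0 ≤ C) (hc : ∀ n, |c n| ≤ C) :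
    ∃ T : X →L[𝕜] Y, ∀ f, T f = Q.E0 f • R.one + ∑' n, ((c n : 𝕜) * Q.phi n f) • R.rho n := by
  have hK := Q.K0
  have hK' := R.K0
  have hsum := fun f => R.summable (coef_summable Q hC hc f)
  refine ⟨LinearMap.mkContinuous
    { toFun := fun f => Q.E0 f • R.one + ∑' n, ((c n : 𝕜) * Q.phi n f) • R.rho n
      map_add' := fun f g => by
        have h1 : ∀ n, ((c n : 𝕜) * Q.phi n (f + g)) • R.rho n =
            ((c n : 𝕜) * Q.phi n f) • R.rho n + ((c n : 𝕜) * Q.phi n g) • R.rho n := by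
          intro n; rw [map_add, mul_add, add_smul]
        rw [map_add, add_smul, tsum_congr h1, (hsum f).tsum_add (hsum g)]
        abel
      map_smul' := fun r f => by
        have h1 : ∀ n, ((c n : 𝕜) * Q.phi n (r • f)) • R.rho n =
            r • (((c n : 𝕜) * Q.phi n f) • R.rho n) := by
          intro n; rw [map_smul, smul_smul, smul_eq_mul]; congr 1; ring
        rw [map_smul, tsum_congr h1, (hsum f).tsum_const_smul, RingHom.id_apply, smul_add,
          smul_eq_mul, mul_smul] } (1 + R.K * (C * Q.K)) ?_, fun f => rfl⟩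
  intro f
  change ‖Q.E0 f • R.one + ∑' n, ((c n : 𝕜) * Q.phi n f) • R.rho n‖ ≤ _
  refine (norm_add_le _ _).trans ?_
  rw [norm_smul, R.norm_one, mul_one]
  have h1 := Q.norm_E0 f
  have h2 := R.norm_tsum_le (M := C * (Q.K * ‖f‖)) (by positivity) (coef_bound Q hC hc f)
  calc _ ≤ ‖f‖ + R.K * (C * (Q.K * ‖f‖)) := add_le_add h1 h2
    _ = _ := by ring

/-- The abstract counterexample. -/
theorem main_abs [Nontrivial X] (c0 : ℝ) (hc0 : 0 < c0) (hKK : R.K * (c0 * Q.K) ≤ 1)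
    (hbig : ∃ f : X, ‖f‖ < ‖Q.E0 f • R.one + ∑' n, ((c0 : 𝕜) * Q.phi n f) • R.rho n‖) :
    ∃ T : X →L[𝕜] Y, (∃ f : ℕ → X, (∀ n, ‖f n‖ = 1) ∧
      Tendsto (fun n => ‖T (f n)‖) atTop (𝓝 ‖T‖) ∧
      ¬ Tendsto (fun n => Q.E0 (f n)) atTop (𝓝 0)) ∧ ¬ ∃ x, ‖x‖ = 1 ∧ ‖T x‖ = ‖T‖ := by
  have hK := Q.K0
  have hK' := R.K0
  -- the constant operator
  obtain ⟨T0, hT0⟩ := exists_op R Q (c := fun _ => c0) hc0.le (fun _ => (abs_of_pos hc0).le)
  -- the weights
  obtain ⟨c, hc⟩ : ∃ c : ℕ → ℝ, ∀ n, c n = c0 * (1 - 1 / ((n : ℝ) + 2)) := ⟨_, fun _ => rfl⟩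
  have hc1 : ∀ n, 0 < c n := fun n => by
    rw [hc]
    have : (1 : ℝ) / ((n : ℝ) + 2) < 1 := by
      rw [div_lt_one (by positivity)]
      have : (0 : ℝ) ≤ n := Nat.cast_nonneg n
      linarith
    have : 0 < 1 - 1 / ((n : ℝ) + 2) := by linarith
    positivity
  have hc2 : ∀ n, c n < c0 := fun n => by
    rw [hc]
    have : 0 < (1 : ℝ) / ((n : ℝ) + 2) := by positivity
    nlinarith
  have hc3 : ∀ n, c n < c (n + 1) := fun n => by
    rw [hc, hc]
    have : (1 : ℝ) / (((n + 1 : ℕ) : ℝ) + 2) < 1 / ((n : ℝ) + 2) := by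
      apply one_div_lt_one_div_of_lt (by positivity)
      push_cast; linarith
    nlinarith
  have hcabs : ∀ n, |c n| ≤ c0 := fun n => by rw [abs_of_pos (hc1 n)]; exact (hc2 n).le
  obtain ⟨T, hT⟩ := exists_op R Q hc0.le hcabs
  -- shifts
  have hshift : ∀ N f, ‖T (Q.U^[N] f)‖ =
      ‖Q.E0 f • R.one + ∑' n, ((c (n + N) : 𝕜) * Q.phi n f) • R.rho n‖ := by
    have key : ∀ (d : ℕ → ℝ), (∀ n, |d n| ≤ c0) → ∀ f,
        Q.E0 (Q.U f) • R.one + ∑' n, ((d n : 𝕜) * Q.phi n (Q.U f)) • R.rho n =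
        R.U (Q.E0 f • R.one + ∑' n, ((d (n + 1) : 𝕜) * Q.phi n f) • R.rho n) := by
      intro d hd f
      have hs1 := R.summable (coef_summable Q hc0.le hd (Q.U f))
      have hs2 := R.summable (coef_summable Q (c := fun n => d (n + 1)) hc0.le
        (fun n => hd (n + 1)) f)
      rw [map_add, map_smul, R.U_one, Q.E0_U, hs1.tsum_eq_zero_add, Q.phi_zero, mul_zero,
        zero_smul, zero_add, R.U.map_tsum hs2]
      congr 1
      refine tsum_congr fun n => ?_
      rw [map_smul, R.U_rho, Q.phi_succ]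
    have hiter : ∀ N (d : ℕ → ℝ), (∀ n, |d n| ≤ c0) → ∀ f,
        ‖Q.E0 (Q.U^[N] f) • R.one + ∑' n, ((d n : 𝕜) * Q.phi n (Q.U^[N] f)) • R.rho n‖ =
        ‖Q.E0 f • R.one + ∑' n, ((d (n + N) : 𝕜) * Q.phi n f) • R.rho n‖ := by
      intro N
      induction N with
      | zero => intro d _ f; rfl
      | succ N ih =>
        intro d hd f
        rw [Function.iterate_succ_apply', key d hd, R.norm_U,
          ih (fun n => d (n + 1)) (fun n => hd (n + 1)) f]
        rfl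
    intro N f
    rw [hT]
    exact hiter N c hcabs f
  have hnU : ∀ N f, ‖Q.U^[N] f‖ = ‖f‖ := by
    intro N
    induction N with
    | zero => intro f; rfl
    | succ N ih => intro f; rw [Function.iterate_succ_apply', Q.norm_U, ih]
  have hE0U : ∀ N f, Q.E0 (Q.U^[N] f) = Q.E0 f := by
    intro N
    induction N with
    | zero => intro f; rfl
    | succ N ih => intro f; rw [Function.iterate_succ_apply', Q.E0_U, ih]
  have hsumc := fun f => R.summable (coef_summable Q hc0.le hcabs f)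
  have hsum0 := fun f => R.summable (coef_summable Q (c := fun _ => c0) hc0.le
    (fun _ => (abs_of_pos hc0).le) f)
  -- upper bound
  have hle0 : ∀ f, ‖T f‖ ≤ ‖T0 f‖ := by
    intro f
    rw [hT, hT0]
    refine R.contract' _ _ _ (hsumc f) (hsum0 f) (fun n => c n / c0) ?_ ?_ ?_
    · intro n; exact div_nonneg (hc1 n).le hc0.le
    · intro n
      rw [div_le_one hc0]; exact (hc2 n).le
    · intro n
      rw [← mul_assoc, ← RCLike.ofReal_mul, div_mul_cancel₀ _ hc0.ne']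
  have hle : ‖T‖ ≤ ‖T0‖ := by
    refine ContinuousLinearMap.opNorm_le_bound _ (norm_nonneg _) fun f => ?_
    exact (hle0 f).trans (T0.le_opNorm f)
  -- the tails
  have htail : ∀ (N : ℕ) (f : X), ‖T0 f‖ - R.K * (c0 * (1 / ((N : ℝ) + 2)) * (Q.K * ‖f‖)) ≤
      ‖T (Q.U^[N] f)‖ := by
    intro N f
    rw [hshift, hT0]
    have hsN := R.summable (coef_summable Q (c := fun n => c (n + N)) hc0.le
      (fun n => hcabs (n + N)) f)
    obtain ⟨y, hy⟩ : ∃ y, y = ∑' n, (((c0 - c (n + N) : ℝ) : 𝕜) * Q.phi n f) • R.rho n := ⟨_, rfl⟩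
    have hyn : ‖y‖ ≤ R.K * (c0 * (1 / ((N : ℝ) + 2)) * (Q.K * ‖f‖)) := by
      rw [hy]
      refine R.norm_tsum_le (by positivity) (coef_bound Q (by positivity) (fun n => ?_) f)
      rw [abs_of_pos (by have := hc2 (n + N); linarith), hc]
      have h1 : c0 - c0 * (1 - 1 / (((n + N : ℕ) : ℝ) + 2)) = c0 * (1 / (((n + N : ℕ) : ℝ) + 2)) := by
        ring
      rw [h1]
      gcongr
      push_cast
      have : (0 : ℝ) ≤ n := Nat.cast_nonneg n
      linarith
    have hsy : Summable fun n => (((c0 - c (n + N) : ℝ) : 𝕜) * Q.phi n f) • R.rho n := by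
      refine ((hsum0 f).sub hsN).congr fun n => ?_
      rw [← sub_smul, ← sub_mul]; push_cast; rfl
    have e1 : Q.E0 f • R.one + ∑' n, ((c0 : 𝕜) * Q.phi n f) • R.rho n =
        (Q.E0 f • R.one + ∑' n, ((c (n + N) : 𝕜) * Q.phi n f) • R.rho n) + y := by
      rw [hy, add_assoc, ← hsN.tsum_add hsy]
      congr 1
      refine tsum_congr fun n => ?_
      rw [← add_smul, ← add_mul]; push_cast; congr 2; ring
    rw [e1]
    have := norm_add_le (Q.E0 f • R.one + ∑' n, ((c (n + N) : 𝕜) * Q.phi n f) • R.rho n) y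
    linarith
  have hge : ‖T0‖ ≤ ‖T‖ := by
    refine ContinuousLinearMap.opNorm_le_bound _ (norm_nonneg _) fun f => ?_
    have hlim : Tendsto (fun N : ℕ => ‖T0 f‖ - R.K * (c0 * (1 / ((N : ℝ) + 2)) * (Q.K * ‖f‖)))
        atTop (𝓝 (‖T0 f‖ - R.K * (c0 * 0 * (Q.K * ‖f‖)))) := by
      refine tendsto_const_nhds.sub (Tendsto.const_mul _ (Tendsto.mul_const _
        (Tendsto.const_mul _ ?_)))
      have := tendsto_one_div_add_atTop_nhds_zero_nat (𝕜 := ℝ)
      refine squeeze_zero (fun N => by positivity) (fun N => ?_) this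
      gcongr
      norm_num
    rw [mul_zero, zero_mul, mul_zero, sub_zero] at hlim
    refine le_of_tendsto hlim (Eventually.of_forall fun N => ?_)
    refine (htail N f).trans ((T.le_opNorm _).trans ?_)
    rw [hnU]
  have hTT : ‖T‖ = ‖T0‖ := le_antisymm hle hge
  -- the norm is larger than one
  have h1T : 1 < ‖T0‖ := by
    obtain ⟨f, hf⟩ := hbig
    rw [← hT0] at hf
    have h1 := T0.le_opNorm f
    by_contra hcon
    push Not at hcon
    have : ‖T0‖ * ‖f‖ ≤ 1 * ‖f‖ := by gcongr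
    linarith
  -- estimate for functions with small mean
  have hmean : ∀ f, ‖T f‖ ≤ ‖Q.E0 f‖ + ‖f‖ := by
    intro f
    rw [hT]
    refine (norm_add_le _ _).trans ?_
    rw [norm_smul, R.norm_one, mul_one]
    have h2 := R.norm_tsum_le (M := c0 * (Q.K * ‖f‖)) (by positivity)
      (coef_bound Q hc0.le hcabs f)
    have h3 : R.K * (c0 * (Q.K * ‖f‖)) ≤ 1 * ‖f‖ := by
      calc _ = (R.K * (c0 * Q.K)) * ‖f‖ := by ring
        _ ≤ _ := by gcongr
    linarith
  refine ⟨T, ?_, ?_⟩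
  · -- the maximizing sequence
    have hex : ∀ k : ℕ, ∃ x : X, ‖x‖ = 1 ∧ ‖T‖ - 1 / ((k : ℝ) + 1) < ‖T x‖ := by
      intro k
      have hk : 0 < 1 / ((k : ℝ) + 1) := by positivity
      rcases lt_or_ge (‖T‖ - 1 / ((k : ℝ) + 1)) 0 with h | h
      · obtain ⟨v, hv⟩ := exists_ne (0 : X)
        refine ⟨((‖v‖ : ℝ) : 𝕜)⁻¹ • v, ?_, lt_of_lt_of_le h (norm_nonneg _)⟩
        rw [norm_smul, norm_inv, RCLike.norm_ofReal, abs_norm,
          inv_mul_cancel₀ (norm_ne_zero_iff.2 hv)]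
      · obtain ⟨v, hv1, hv2⟩ := T.exists_lt_apply_of_lt_opNorm
          (r := ‖T‖ - 1 / ((k : ℝ) + 1)) (by linarith)
        have hv0 : v ≠ 0 := by
          rintro rfl
          rw [map_zero, norm_zero] at hv2
          linarith
        have hvp : 0 < ‖v‖ := norm_pos_iff.2 hv0
        refine ⟨((‖v‖ : ℝ) : 𝕜)⁻¹ • v, ?_, ?_⟩
        · rw [norm_smul, norm_inv, RCLike.norm_ofReal, abs_norm, inv_mul_cancel₀ hvp.ne']
        · rw [map_smul, norm_smul, norm_inv, RCLike.norm_ofReal, abs_norm]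
          refine lt_of_lt_of_le hv2 ?_
          rw [le_inv_mul_iff₀ hvp]
          have := norm_nonneg (T v)
          nlinarith
    choose x hx1 hx2 using hex
    have hlim : Tendsto (fun n => ‖T (x n)‖) atTop (𝓝 ‖T‖) := by
      refine tendsto_of_tendsto_of_tendsto_of_le_of_le
        (g := fun k : ℕ => ‖T‖ - 1 / ((k : ℝ) + 1)) (h := fun _ => ‖T‖) ?_ tendsto_const_nhds
        (fun k => (hx2 k).le) (fun k => ?_)
      · have := (tendsto_one_div_add_atTop_nhds_zero_nat (𝕜 := ℝ)).const_sub ‖T‖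
        rwa [sub_zero] at this
      · have := T.le_opNorm (x k)
        rwa [hx1, mul_one] at this
    refine ⟨x, hx1, hlim, fun h0 => ?_⟩
    have h2 : Tendsto (fun n => ‖Q.E0 (x n)‖ + 1) atTop (𝓝 (0 + 1)) := by
      have := h0.norm
      rw [norm_zero] at this
      exact this.add_const 1
    have h3 := le_of_tendsto_of_tendsto' hlim h2 fun n => by
      have := hmean (x n)
      rwa [hx1] at this
    rw [hTT] at h3
    linarith
  · rintro ⟨f, hf1, hf2⟩
    by_cases hall : ∀ n, Q.phi n f = 0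
    · have h1 : T f = Q.E0 f • R.one := by
        rw [hT]
        have : ∀ n, ((c n : 𝕜) * Q.phi n f) • R.rho n = 0 := fun n => by
          rw [hall n, mul_zero, zero_smul]
        rw [tsum_congr this, tsum_zero, add_zero]
      rw [h1, norm_smul, R.norm_one, mul_one, hTT] at hf2
      have := Q.norm_E0 f
      rw [hf1] at this
      linarith
    · push Not at hall
      obtain ⟨m, hm⟩ := hall
      have h1 : ‖T f‖ < ‖T (Q.U^[1] f)‖ := by
        rw [hshift 1 f, hT]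
        refine R.contract_lt _ _ _ (hsumc f) (R.summable (coef_summable Q
          (c := fun n => c (n + 1)) hc0.le (fun n => hcabs (n + 1)) f))
          (fun n => c n / c (n + 1)) ?_ ?_ ?_ m ?_
        · intro n; exact div_nonneg (hc1 n).le (hc1 _).le
        · intro n
          rw [div_lt_one (hc1 _)]; exact hc3 n
        · intro n
          rw [← mul_assoc, ← RCLike.ofReal_mul, div_mul_cancel₀ _ (hc1 _).ne']
        · refine mul_ne_zero ?_ hm
          exact_mod_cast (hc1 _).ne'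
      have h2 := T.le_opNorm (Q.U^[1] f)
      rw [hnU, hf1, mul_one] at h2
      linarith

end ops

end Pool.Agent.L0h84.WM
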