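import Mathlib

/-! The doubling map on `[0,1]` and Rademacher functions. -/

namespace Pool.Agent.L0h84.WM

open MeasureTheory Filter Set
open scoped ENNReal

/-- Lebesgue measure on `[0,1]`. -/
noncomputable def mu : Measure ℝ := volume.restrict (Icc (0 : ℝ) 1)

instance : IsProbabilityMeasure mu := by
  constructor
  simp [mu]

/-- The two inverse branches. -/
noncomputable def s0 (y : ℝ) : ℝ := (1 / 2) * y
noncomputable def s1 (y : ℝ) : ℝ := (1 / 2) * y + 1 / 2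
/-- The doubling map. -/
noncomputable def DD (x : ℝ) : ℝ := if x < 1 / 2 then 2 * x else 2 * x - 1
/-- The first Rademacher function. -/
noncomputable def rr (x : ℝ) : ℝ := if x < 1 / 2 then 1 else -1

lemma meas_s0 : Measurable s0 := by unfold s0; fun_prop
lemma meas_s1 : Measurable s1 := by unfold s1; fun_prop
lemma meas_DD : Measurable DD := by
  unfold DD
  exact Measurable.ite measurableSet_Iio (by fun_prop) (by fun_prop)
lemma meas_rr : Measurable rr := by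
  unfold rr
  exact Measurable.ite measurableSet_Iio (by fun_prop) (by fun_prop)

lemma ae_mem : ∀ᵐ y ∂mu, y ∈ Ico (0 : ℝ) 1 := by
  have h : mu = volume.restrict (Ico (0 : ℝ) 1) := by
    unfold mu
    exact (Measure.restrict_congr_set Ico_ae_eq_Icc).symm
  rw [h]
  exact ae_restrict_mem measurableSet_Ico

lemma DD_s0 {y : ℝ} (hy : y ∈ Ico (0 : ℝ) 1) : DD (s0 y) = y := by
  obtain ⟨h0, h1⟩ := hy
  unfold DD s0
  rw [if_pos (by linarith)]; ring
lemma DD_s1 {y : ℝ} (hy : y ∈ Ico (0 : ℝ) 1) : DD (s1 y) = y := by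
  obtain ⟨h0, h1⟩ := hy
  unfold DD s1
  rw [if_neg (by linarith)]; ring
lemma rr_s0 {y : ℝ} (hy : y ∈ Ico (0 : ℝ) 1) : rr (s0 y) = 1 := by
  obtain ⟨h0, h1⟩ := hy
  unfold rr s0
  rw [if_pos (by linarith)]
lemma rr_s1 {y : ℝ} (hy : y ∈ Ico (0 : ℝ) 1) : rr (s1 y) = -1 := by
  obtain ⟨h0, h1⟩ := hy
  unfold rr s1
  rw [if_neg (by linarith)]

lemma mu_eq : mu = (2⁻¹ : ℝ≥0∞) • mu.map s0 + (2⁻¹ : ℝ≥0∞) • mu.map s1 := by
  ext E hE
  rw [Measure.add_apply, Measure.smul_apply, Measure.smul_apply, Measure.map_apply meas_s0 hE,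
    Measure.map_apply meas_s1 hE]
  unfold mu
  rw [Measure.restrict_apply hE, Measure.restrict_apply (meas_s0 hE),
    Measure.restrict_apply (meas_s1 hE)]
  have h0 : s0 ⁻¹' E ∩ Icc 0 1 = (fun y : ℝ => (1 / 2) * y) ⁻¹' (E ∩ Icc 0 (1 / 2)) := by
    ext y
    simp only [s0, mem_inter_iff, mem_preimage, mem_Icc]
    constructor
    · rintro ⟨h1, h2, h3⟩; exact ⟨h1, by linarith, by linarith⟩
    · rintro ⟨h1, h2, h3⟩; exact ⟨h1, by linarith, by linarith⟩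
  have h1 : s1 ⁻¹' E ∩ Icc 0 1 =
      (fun y : ℝ => (1 / 2) * y) ⁻¹' ((fun y : ℝ => y + 1 / 2) ⁻¹' (E ∩ Icc (1 / 2) 1)) := by
    ext y
    simp only [s1, mem_inter_iff, mem_preimage, mem_Icc]
    constructor
    · rintro ⟨h1, h2, h3⟩; exact ⟨h1, by linarith, by linarith⟩
    · rintro ⟨h1, h2, h3⟩; exact ⟨h1, by linarith, by linarith⟩
  rw [h0, h1, Real.volume_preimage_mul_left (by norm_num), Real.volume_preimage_mul_left
    (by norm_num), measure_preimage_add_right]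
  have h2 : ENNReal.ofReal |(1 / 2 : ℝ)⁻¹| = 2 := by norm_num
  rw [h2, smul_eq_mul, smul_eq_mul, ← mul_assoc, ← mul_assoc,
    ENNReal.inv_mul_cancel (by norm_num) (by norm_num), one_mul, one_mul]
  have h3 : volume (E ∩ Icc (1 / 2 : ℝ) 1) = volume (E ∩ Ioc (1 / 2 : ℝ) 1) :=
    measure_congr ((ae_eq_refl E).inter Ioc_ae_eq_Icc.symm)
  rw [h3, ← measure_union _ (hE.inter measurableSet_Ioc)]
  · congr 1
    rw [← inter_union_distrib_left, Icc_union_Ioc_eq_Icc (by norm_num) (by norm_num)]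
  · rw [Set.disjoint_left]
    rintro x ⟨_, _, hx⟩ ⟨_, hx', _⟩
    linarith

lemma DD_mp : MeasurePreserving DD mu mu := by
  refine ⟨meas_DD, ?_⟩
  conv_lhs => rw [mu_eq]
  rw [Measure.map_add _ _ meas_DD, Measure.map_smul, Measure.map_smul,
    Measure.map_map meas_DD meas_s0, Measure.map_map meas_DD meas_s1]
  have h0 : Measure.map (DD ∘ s0) mu = mu := by
    have h : DD ∘ s0 =ᵐ[mu] id := ae_mem.mono fun y hy => DD_s0 hy
    rw [Measure.map_congr h, Measure.map_id]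
  have h1 : Measure.map (DD ∘ s1) mu = mu := by
    have h : DD ∘ s1 =ᵐ[mu] id := ae_mem.mono fun y hy => DD_s1 hy
    rw [Measure.map_congr h, Measure.map_id]
  rw [h0, h1, ← add_smul, ENNReal.inv_two_add_inv_two, one_smul]

lemma lintegral_avg {F : ℝ → ℝ≥0∞} (hF : Measurable F) :
    ∫⁻ x, F x ∂mu = 2⁻¹ * ∫⁻ y, F (s0 y) ∂mu + 2⁻¹ * ∫⁻ y, F (s1 y) ∂mu := by
  conv_lhs => rw [mu_eq]
  rw [lintegral_add_measure, lintegral_smul_measure, lintegral_smul_measure,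
    lintegral_map hF meas_s0, lintegral_map hF meas_s1]
  rfl

variable {𝕜 : Type*} [RCLike 𝕜]

lemma integral_rr {g : ℝ → 𝕜} (hg : Integrable g mu) (hgm : StronglyMeasurable g) :
    ∫ x, (rr x : 𝕜) * g (DD x) ∂mu = 0 := by
  have hm : StronglyMeasurable fun x => (rr x : 𝕜) * g (DD x) :=
    (RCLike.measurable_ofReal.comp meas_rr).stronglyMeasurable.mul
      (hgm.comp_measurable meas_DD)
  have hi0 : Integrable (fun x => (rr x : 𝕜) * g (DD x)) (mu.map s0) := by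
    rw [integrable_map_measure hm.aestronglyMeasurable meas_s0.aemeasurable]
    refine hg.congr (ae_mem.mono fun y hy => ?_)
    simp [Function.comp, rr_s0 hy, DD_s0 hy]
  have hi1 : Integrable (fun x => (rr x : 𝕜) * g (DD x)) (mu.map s1) := by
    rw [integrable_map_measure hm.aestronglyMeasurable meas_s1.aemeasurable]
    refine hg.neg.congr (ae_mem.mono fun y hy => ?_)
    simp [Function.comp, rr_s1 hy, DD_s1 hy]
  conv_lhs => rw [mu_eq]
  rw [integral_add_measure (hi0.smul_measure (by norm_num)) (hi1.smul_measure (by norm_num)),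
    integral_smul_measure, integral_smul_measure,
    integral_map meas_s0.aemeasurable hm.aestronglyMeasurable,
    integral_map meas_s1.aemeasurable hm.aestronglyMeasurable]
  have e0 : ∫ y, (rr (s0 y) : 𝕜) * g (DD (s0 y)) ∂mu = ∫ y, g y ∂mu := by
    refine integral_congr_ae (ae_mem.mono fun y hy => ?_)
    simp [rr_s0 hy, DD_s0 hy]
  have e1 : ∫ y, (rr (s1 y) : 𝕜) * g (DD (s1 y)) ∂mu = - ∫ y, g y ∂mu := by
    rw [← integral_neg]
    refine integral_congr_ae (ae_mem.mono fun y hy => ?_)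
    simp [rr_s1 hy, DD_s1 hy]
  rw [e0, e1, smul_neg, add_neg_cancel]

section Lp

variable (𝕜) (r : ℝ≥0∞) [Fact (1 ≤ r)]

lemma abs_rr (x : ℝ) : |rr x| = 1 := by
  unfold rr; split_ifs <;> simp

omit [Fact (1 ≤ r)] in
lemma memLp_rr : MemLp (fun x => (rr x : 𝕜)) r mu := by
  refine MemLp.of_bound (RCLike.measurable_ofReal.comp meas_rr).aestronglyMeasurable 1
    (Eventually.of_forall fun x => ?_)
  simp [abs_rr]

/-- The constant function `1`. -/
noncomputable def on : Lp 𝕜 r mu := (memLp_const (1 : 𝕜)).toLp (fun _ => (1 : 𝕜))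

/-- The first Rademacher function as an element of `L_r`. -/
noncomputable def rh0 : Lp 𝕜 r mu := (memLp_rr 𝕜 r).toLp _

/-- Composition with the doubling map. -/
noncomputable def UU : Lp 𝕜 r mu →ₗᵢ[𝕜] Lp 𝕜 r mu := Lp.compMeasurePreservingₗᵢ 𝕜 DD DD_mp

lemma UU_coe (f : Lp 𝕜 r mu) : UU 𝕜 r f =ᵐ[mu] f ∘ DD :=
  Lp.coeFn_compMeasurePreserving f DD_mp

omit [Fact (1 ≤ r)] in
lemma on_coe : on 𝕜 r =ᵐ[mu] fun _ => (1 : 𝕜) := MemLp.coeFn_toLp _

omit [Fact (1 ≤ r)] in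
lemma rh0_coe : rh0 𝕜 r =ᵐ[mu] fun x => (rr x : 𝕜) := MemLp.coeFn_toLp _

lemma UU_on : UU 𝕜 r (on 𝕜 r) = on 𝕜 r := by
  apply Lp.ext
  have h1 := DD_mp.quasiMeasurePreserving.ae (on_coe 𝕜 r)
  filter_upwards [UU_coe 𝕜 r (on 𝕜 r), on_coe 𝕜 r, h1] with x hx hx1 hx2
  rw [hx, hx1, Function.comp_apply, hx2]

lemma enorm_rpow (hr : r ≠ ∞) (f : Lp 𝕜 r mu) :
    ‖f‖ₑ ^ r.toReal = ∫⁻ x, ‖f x‖ₑ ^ r.toReal ∂mu := by
  have h0 : r ≠ 0 := (lt_of_lt_of_le one_pos (Fact.out : 1 ≤ r)).ne'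
  have h1 : 0 < r.toReal := ENNReal.toReal_pos h0 hr
  rw [Lp.enorm_def, eLpNorm_eq_lintegral_rpow_enorm_toReal h0 hr, ← ENNReal.rpow_mul]
  rw [one_div_mul_cancel h1.ne', ENNReal.rpow_one]

lemma norm_on (hr : r ≠ ∞) : ‖on 𝕜 r‖ = 1 := by
  have h0 : r ≠ 0 := (lt_of_lt_of_le one_pos (Fact.out : 1 ≤ r)).ne'
  unfold on
  rw [Lp.norm_toLp, eLpNorm_const' _ h0 hr]
  simp

lemma norm_split (hr : r ≠ ∞) (b : 𝕜) (h : Lp 𝕜 r mu) :
    ‖b • rh0 𝕜 r + UU 𝕜 r h‖ ^ r.toReal =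
      (‖h + b • on 𝕜 r‖ ^ r.toReal + ‖h - b • on 𝕜 r‖ ^ r.toReal) / 2 := by
  have h0 : r ≠ 0 := (lt_of_lt_of_le one_pos (Fact.out : 1 ≤ r)).ne'
  have h1 : 0 < r.toReal := ENNReal.toReal_pos h0 hr
  have key : ‖b • rh0 𝕜 r + UU 𝕜 r h‖ₑ ^ r.toReal =
      2⁻¹ * ‖h + b • on 𝕜 r‖ₑ ^ r.toReal + 2⁻¹ * ‖h - b • on 𝕜 r‖ₑ ^ r.toReal := by
    rw [enorm_rpow 𝕜 r hr, enorm_rpow 𝕜 r hr, enorm_rpow 𝕜 r hr]
    have e1 : ∫⁻ x, ‖(b • rh0 𝕜 r + UU 𝕜 r h : Lp 𝕜 r mu) x‖ₑ ^ r.toReal ∂mu =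
        ∫⁻ x, ‖b * (rr x : 𝕜) + h (DD x)‖ₑ ^ r.toReal ∂mu := by
      refine lintegral_congr_ae ?_
      filter_upwards [Lp.coeFn_add (b • rh0 𝕜 r) (UU 𝕜 r h), Lp.coeFn_smul b (rh0 𝕜 r),
        rh0_coe 𝕜 r, UU_coe 𝕜 r h] with x x1 x2 x3 x4
      rw [x1, Pi.add_apply, x2, Pi.smul_apply, x3, x4, smul_eq_mul]
      rfl
    rw [e1, lintegral_avg]
    · congr 2
      · refine lintegral_congr_ae ?_
        filter_upwards [Lp.coeFn_add h (b • on 𝕜 r), Lp.coeFn_smul b (on 𝕜 r),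
          on_coe 𝕜 r, ae_mem] with x x1 x2 x3 x4
        rw [x1, Pi.add_apply, x2, Pi.smul_apply, x3, smul_eq_mul, DD_s0 x4, rr_s0 x4]
        simp [add_comm]
      · refine lintegral_congr_ae ?_
        filter_upwards [Lp.coeFn_sub h (b • on 𝕜 r), Lp.coeFn_smul b (on 𝕜 r),
          on_coe 𝕜 r, ae_mem] with x x1 x2 x3 x4
        rw [x1, Pi.sub_apply, x2, Pi.smul_apply, x3, smul_eq_mul, DD_s1 x4, rr_s1 x4]
        simp [sub_eq_add_neg, add_comm]
    · have m1 : Measurable fun x => h (DD x) := (Lp.stronglyMeasurable h).measurable.comp meas_DD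
      have m2 : Measurable fun x => (rr x : 𝕜) := RCLike.measurable_ofReal.comp meas_rr
      exact (((m2.const_mul b).add m1).enorm).pow_const _
  have key2 := congrArg ENNReal.toReal key
  rw [ENNReal.toReal_add (by finiteness) (by finiteness), ENNReal.toReal_mul, ENNReal.toReal_mul,
    ← ENNReal.toReal_rpow, ← ENNReal.toReal_rpow, ← ENNReal.toReal_rpow, toReal_enorm,
    toReal_enorm, toReal_enorm, ENNReal.toReal_inv] at key2
  rw [key2]
  norm_num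
  ring

end Lp

end Pool.Agent.L0h84.WM
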