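import Mathlib

/-! Averages over signs and Khintchine's inequality with explicit constants. -/

namespace Pool.Agent.L0h84.WM

open Finset

variable {𝕜 : Type*} [RCLike 𝕜]

/-- The average of `F` over all sums `± b 0 ± ... ± b (N-1)`. -/
noncomputable def Ex : ℕ → (ℕ → 𝕜) → (𝕜 → ℝ) → ℝ
  | 0, _, F => F 0
  | (N + 1), b, F => Ex N (fun n => b (n + 1)) (fun u => (F (u + b 0) + F (u - b 0)) / 2)

lemma Ex_mono (N : ℕ) : ∀ (b : ℕ → 𝕜) {F G : 𝕜 → ℝ}, (∀ u, F u ≤ G u) → Ex N b F ≤ Ex N b G := by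
  induction N with
  | zero => intro b F G h; exact h 0
  | succ N ih =>
    intro b F G h
    refine ih _ fun u => ?_
    have h1 := h (u + b 0)
    have h2 := h (u - b 0)
    linarith

lemma Ex_add (N : ℕ) : ∀ (b : ℕ → 𝕜) (F G : 𝕜 → ℝ),
    Ex N b (fun u => F u + G u) = Ex N b F + Ex N b G := by
  induction N with
  | zero => intro b F G; rfl
  | succ N ih =>
    intro b F G
    simp only [Ex]
    rw [← ih]
    congr 1
    funext u
    ring

lemma Ex_mul (N : ℕ) : ∀ (b : ℕ → 𝕜) (c : ℝ) (F : 𝕜 → ℝ),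
    Ex N b (fun u => c * F u) = c * Ex N b F := by
  induction N with
  | zero => intro b c F; rfl
  | succ N ih =>
    intro b c F
    simp only [Ex]
    rw [← ih]
    congr 1
    funext u
    ring

lemma Ex_const (N : ℕ) : ∀ (b : ℕ → 𝕜) (c : ℝ), Ex N b (fun _ => c) = c := by
  induction N with
  | zero => intro b c; rfl
  | succ N ih =>
    intro b c
    simp only [Ex]
    rw [show (fun _ : 𝕜 => (c + c) / 2) = fun _ => c by funext; ring]
    exact ih _ _

lemma Ex_sum (N : ℕ) (b : ℕ → 𝕜) {ι : Type*} (s : Finset ι) (F : ι → 𝕜 → ℝ) :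
    Ex N b (fun u => ∑ i ∈ s, F i u) = ∑ i ∈ s, Ex N b (F i) := by
  classical
  induction s using Finset.induction_on with
  | empty => simp [Ex_const]
  | insert i s hi ih =>
    simp only [Finset.sum_insert hi]
    rw [Ex_add, ih]

lemma Ex_congr (N : ℕ) : ∀ (b b' : ℕ → 𝕜) (F : 𝕜 → ℝ), (∀ n < N, b n = b' n) →
    Ex N b F = Ex N b' F := by
  induction N with
  | zero => intro b b' F _; rfl
  | succ N ih =>
    intro b b' F h
    simp only [Ex]
    rw [h 0 (by omega)]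
    exact ih _ _ _ fun n hn => h (n + 1) (by omega)

lemma Ex_flip (N : ℕ) : ∀ (m : ℕ) (b : ℕ → 𝕜) (F : 𝕜 → ℝ),
    Ex N (Function.update b m (-b m)) F = Ex N b F := by
  induction N with
  | zero => intro m b F; rfl
  | succ N ih =>
    intro m b F
    cases m with
    | zero =>
      simp only [Ex, Function.update_self]
      refine Eq.trans (Ex_congr N _ (fun n => b (n + 1)) _ fun n _ => ?_) ?_
      · simp [Function.update_of_ne]
      · congr 1
        funext u
        rw [← sub_eq_add_neg, sub_neg_eq_add]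
        ring
    | succ m =>
      simp only [Ex]
      rw [Function.update_of_ne (by omega : (0 : ℕ) ≠ m + 1)]
      rw [← ih m (fun n => b (n + 1))]
      refine Ex_congr N _ _ _ fun n _ => ?_
      simp only [Function.update_apply, add_left_inj]

/-- Hölder's inequality for sign averages, in the form needed. -/
lemma Ex_holder (N : ℕ) (b : ℕ → 𝕜) (F G : 𝕜 → ℝ) (hF : ∀ u, 0 ≤ F u) (hG : ∀ u, 0 ≤ G u)
    {X Y α β : ℝ} (hX : 0 < X) (hY : 0 < Y) (hα : 0 ≤ α) (hβ : 0 ≤ β) (hαβ : α + β = 1)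
    (h1 : Ex N b F ≤ X) (h2 : Ex N b G ≤ Y) :
    Ex N b (fun u => F u ^ α * G u ^ β) ≤ X ^ α * Y ^ β := by
  have h3 : ∀ u, F u ^ α * G u ^ β ≤ (X ^ α * Y ^ β) * (α / X * F u + β / Y * G u) := by
    intro u
    have h4 := Real.geom_mean_le_arith_mean2_weighted hα hβ (div_nonneg (hF u) hX.le)
      (div_nonneg (hG u) hY.le) hαβ
    rw [Real.div_rpow (hF u) hX.le, Real.div_rpow (hG u) hY.le] at h4
    have hXα : 0 < X ^ α := Real.rpow_pos_of_pos hX _
    have hYβ : 0 < Y ^ β := Real.rpow_pos_of_pos hY _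
    have h5 : F u ^ α * G u ^ β = (X ^ α * Y ^ β) * (F u ^ α / X ^ α * (G u ^ β / Y ^ β)) := by
      field_simp
    rw [h5]
    refine mul_le_mul_of_nonneg_left (h4.trans (le_of_eq ?_)) (by positivity)
    ring
  refine (Ex_mono N b h3).trans ?_
  rw [Ex_mul, Ex_add, Ex_mul, Ex_mul]
  have hXα : 0 < X ^ α := Real.rpow_pos_of_pos hX _
  have hYβ : 0 < Y ^ β := Real.rpow_pos_of_pos hY _
  have h6 : α / X * Ex N b F ≤ α := by
    calc α / X * Ex N b F ≤ α / X * X := by gcongr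
      _ = α := by field_simp
  have h7 : β / Y * Ex N b G ≤ β := by
    calc β / Y * Ex N b G ≤ β / Y * Y := by gcongr
      _ = β := by field_simp
  calc (X ^ α * Y ^ β) * (α / X * Ex N b F + β / Y * Ex N b G) ≤ (X ^ α * Y ^ β) * (α + β) := by
        gcongr
    _ = X ^ α * Y ^ β := by rw [hαβ, mul_one]

/-- The even Gaussian moments. -/
noncomputable def Am (m : ℕ) : ℝ := ((2 * m).factorial : ℝ) / (2 ^ m * (m.factorial : ℝ))

lemma Am_ge (m : ℕ) : 1 ≤ Am m := by
  unfold Am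
  rw [le_div_iff₀ (by positivity), one_mul]
  exact_mod_cast Nat.two_pow_mul_factorial_le_factorial_two_mul m

lemma Am_le (m : ℕ) : Am m ≤ (m : ℝ) ^ m := by
  unfold Am
  rw [div_le_iff₀ (by positivity)]
  have h := Nat.factorial_two_mul_le m
  have h' : ((2 * m).factorial : ℝ) ≤ (2 * m : ℝ) ^ m * (m.factorial : ℝ) := by exact_mod_cast h
  refine h'.trans (le_of_eq ?_)
  rw [mul_pow]; ring

lemma Am_mul (m k : ℕ) (hk : k ≤ m) :
    ((2 * m).choose (2 * k) : ℝ) * Am (m - k) ≤ (m.choose k : ℝ) * Am m := by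
  have h1 : ((2 * m).choose (2 * k) : ℝ) * Am (m - k) * Am k = (m.choose k : ℝ) * Am m := by
    unfold Am
    rw [Nat.cast_choose ℝ (by omega : 2 * k ≤ 2 * m), Nat.cast_choose ℝ hk]
    have h2 : 2 * (m - k) = 2 * m - 2 * k := by omega
    rw [h2]
    have h3 : (2 : ℝ) ^ m = 2 ^ (m - k) * 2 ^ k := by
      rw [← pow_add]; congr 1; omega
    rw [h3]
    have a1 : ((2 * m - 2 * k).factorial : ℝ) ≠ 0 := by positivity
    have a2 : ((m - k).factorial : ℝ) ≠ 0 := by positivity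
    have a3 : ((2 * k).factorial : ℝ) ≠ 0 := by positivity
    have a4 : (k.factorial : ℝ) ≠ 0 := by positivity
    have a5 : (m.factorial : ℝ) ≠ 0 := by positivity
    field_simp
  rw [← h1]
  have h4 : 0 ≤ ((2 * m).choose (2 * k) : ℝ) * Am (m - k) := by
    have := Am_ge (m - k)
    positivity
  exact le_mul_of_one_le_right h4 (Am_ge k)

lemma sum_even {g : ℕ → ℝ} (h : ∀ k, g (2 * k + 1) = 0) (m : ℕ) :
    ∑ j ∈ range (2 * m + 1), g j = ∑ k ∈ range (m + 1), g (2 * k) := by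
  induction m with
  | zero => simp
  | succ m ih =>
    rw [show 2 * (m + 1) + 1 = (2 * m + 1) + 1 + 1 by ring, Finset.sum_range_succ,
      Finset.sum_range_succ, ih, h m, Finset.sum_range_succ _ (m + 1)]
    rw [show 2 * m + 1 + 1 = 2 * (m + 1) by ring]
    ring

lemma binom_even (x y : ℝ) (m : ℕ) :
    (x + y) ^ (2 * m) + (x - y) ^ (2 * m) =
      2 * ∑ k ∈ range (m + 1), ((2 * m).choose (2 * k) : ℝ) * y ^ (2 * k) * x ^ (2 * (m - k)) := by
  have h1 : (x + y) ^ (2 * m) + (x - y) ^ (2 * m) = ∑ j ∈ range (2 * m + 1),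
      (1 + (-1) ^ j) * (((2 * m).choose j : ℝ) * y ^ j * x ^ (2 * m - j)) := by
    rw [add_comm x y, sub_eq_add_neg, add_comm x (-y), add_pow, add_pow, ← Finset.sum_add_distrib]
    refine Finset.sum_congr rfl fun j _ => ?_
    rw [neg_pow y j]
    ring
  rw [h1, sum_even, Finset.mul_sum]
  · refine Finset.sum_congr rfl fun k hk => ?_
    rw [pow_mul (-1 : ℝ) 2 k]
    simp only [even_two, Even.neg_pow, one_pow]
    rw [Nat.mul_sub]
    ring
  · intro k
    rw [pow_succ, pow_mul]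
    simp

lemma pow_spread {s t T : ℝ} (m : ℕ) (hT : |t| ≤ T) (hs : T ≤ s) :
    (s + t) ^ m + (s - t) ^ m ≤ (s + T) ^ m + (s - T) ^ m := by
  rcases (le_trans (abs_nonneg t) hT).eq_or_lt with h0 | h0
  · have : t = 0 := by rw [← h0] at hT; exact abs_nonpos_iff.1 hT
    rw [this, ← h0]
  have hc := (convexOn_pow (𝕜 := ℝ) m)
  have ht := abs_le.1 hT
  have hx : s + T ∈ Set.Ici (0 : ℝ) := by simp only [Set.mem_Ici]; linarith
  have hy : s - T ∈ Set.Ici (0 : ℝ) := by simp only [Set.mem_Ici]; linarith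
  have a1 : 0 ≤ (T + t) / (2 * T) := div_nonneg (by linarith) (by linarith)
  have a2 : 0 ≤ (T - t) / (2 * T) := div_nonneg (by linarith) (by linarith)
  have a3 : (T + t) / (2 * T) + (T - t) / (2 * T) = 1 := by field_simp; ring
  have h1 := hc.2 hx hy a1 a2 a3
  have h2 := hc.2 hx hy a2 a1 (by rw [add_comm]; exact a3)
  simp only [smul_eq_mul] at h1 h2
  have e1 : (T + t) / (2 * T) * (s + T) + (T - t) / (2 * T) * (s - T) = s + t := by
    field_simp; ring
  have e2 : (T - t) / (2 * T) * (s + T) + (T + t) / (2 * T) * (s - T) = s - t := by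
    field_simp; ring
  rw [e1] at h1
  rw [e2] at h2
  have e3 : (T - t) / (2 * T) = 1 - (T + t) / (2 * T) := by linarith
  rw [e3] at h1 h2
  linarith

lemma two_point (u v : 𝕜) (m : ℕ) :
    (‖u + v‖ ^ (2 * m) + ‖u - v‖ ^ (2 * m)) / 2 ≤
      ∑ k ∈ range (m + 1), ((2 * m).choose (2 * k) : ℝ) * ‖v‖ ^ (2 * k) * ‖u‖ ^ (2 * (m - k)) := by
  have h1 : ‖u + v‖ ^ 2 = (‖u‖ ^ 2 + ‖v‖ ^ 2) + 2 * RCLike.re (inner 𝕜 u v) := by
    rw [norm_add_sq (𝕜 := 𝕜)]; ring
  have h2 : ‖u - v‖ ^ 2 = (‖u‖ ^ 2 + ‖v‖ ^ 2) - 2 * RCLike.re (inner 𝕜 u v) := by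
    rw [norm_sub_sq (𝕜 := 𝕜)]; ring
  have h3 : |2 * RCLike.re (inner 𝕜 u v)| ≤ 2 * (‖u‖ * ‖v‖) := by
    rw [abs_mul, abs_two]
    have := (RCLike.abs_re_le_norm (inner 𝕜 u v)).trans (norm_inner_le_norm u v)
    linarith
  have h4 : 2 * (‖u‖ * ‖v‖) ≤ ‖u‖ ^ 2 + ‖v‖ ^ 2 := by nlinarith [sq_nonneg (‖u‖ - ‖v‖)]
  have h5 := pow_spread m h3 h4
  have e1 : ‖u‖ ^ 2 + ‖v‖ ^ 2 + 2 * (‖u‖ * ‖v‖) = (‖u‖ + ‖v‖) ^ 2 := by ring
  have e2 : ‖u‖ ^ 2 + ‖v‖ ^ 2 - 2 * (‖u‖ * ‖v‖) = (‖u‖ - ‖v‖) ^ 2 := by ring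
  rw [← h1, ← h2, e1, e2, ← pow_mul, ← pow_mul, ← pow_mul, ← pow_mul, binom_even] at h5
  linarith

/-- Even moments of sign averages. -/
lemma Ex_even (N : ℕ) : ∀ (m : ℕ) (b : ℕ → 𝕜),
    Ex N b (fun u => ‖u‖ ^ (2 * m)) ≤ Am m * (∑ n ∈ range N, ‖b n‖ ^ 2) ^ m := by
  induction N with
  | zero =>
    intro m b
    simp only [Ex, norm_zero, Finset.range_zero, Finset.sum_empty]
    rcases Nat.eq_zero_or_pos m with rfl | hm
    · simp [Am]
    · rw [zero_pow (by omega), zero_pow (by omega)]; simp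
  | succ N ih =>
    intro m b
    set b' : ℕ → 𝕜 := fun n => b (n + 1) with hb'
    set τ := ∑ n ∈ range N, ‖b' n‖ ^ 2 with hτ
    have hτ0 : 0 ≤ τ := Finset.sum_nonneg fun _ _ => by positivity
    have h1 : Ex (N + 1) b (fun u => ‖u‖ ^ (2 * m)) ≤
        Ex N b' (fun u => ∑ k ∈ range (m + 1),
          ((2 * m).choose (2 * k) : ℝ) * ‖b 0‖ ^ (2 * k) * ‖u‖ ^ (2 * (m - k))) := by
      simp only [Ex]
      exact Ex_mono N _ fun u => two_point u (b 0) m
    refine h1.trans ?_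
    rw [Ex_sum]
    have h2 : ∀ k ∈ range (m + 1), Ex N b' (fun u =>
        ((2 * m).choose (2 * k) : ℝ) * ‖b 0‖ ^ (2 * k) * ‖u‖ ^ (2 * (m - k))) ≤
        Am m * ((m.choose k : ℝ) * (‖b 0‖ ^ 2) ^ k * τ ^ (m - k)) := by
      intro k hk
      rw [Ex_mul]
      have hk' : k ≤ m := by simp at hk; omega
      have h3 := ih (m - k) b'
      calc ((2 * m).choose (2 * k) : ℝ) * ‖b 0‖ ^ (2 * k) * Ex N b' (fun u => ‖u‖ ^ (2 * (m - k)))
          ≤ ((2 * m).choose (2 * k) : ℝ) * ‖b 0‖ ^ (2 * k) * (Am (m - k) * τ ^ (m - k)) := by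
            gcongr
        _ = (((2 * m).choose (2 * k) : ℝ) * Am (m - k)) * (‖b 0‖ ^ (2 * k) * τ ^ (m - k)) := by
            ring
        _ ≤ ((m.choose k : ℝ) * Am m) * (‖b 0‖ ^ (2 * k) * τ ^ (m - k)) := by
            refine mul_le_mul_of_nonneg_right (Am_mul m k hk') (by positivity)
        _ = Am m * ((m.choose k : ℝ) * (‖b 0‖ ^ 2) ^ k * τ ^ (m - k)) := by
            rw [← pow_mul]; ring
    refine (Finset.sum_le_sum h2).trans (le_of_eq ?_)
    rw [← Finset.mul_sum, Finset.sum_range_succ' (fun n => ‖b n‖ ^ 2) N]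
    congr 1
    rw [show (∑ n ∈ range N, ‖b (n + 1)‖ ^ 2 + ‖b 0‖ ^ 2) = ‖b 0‖ ^ 2 + τ by
      rw [hτ, hb']; ring, add_pow]
    refine Finset.sum_congr rfl fun k _ => ?_
    ring

/-- Khintchine's inequality for `r ≥ 2`, with a constant at most `r - 1`. -/
theorem khintchine (r : ℝ) (hr : 2 ≤ r) : ∃ κ : ℝ, 1 ≤ κ ∧ κ ≤ r - 1 ∧ (2 < r → κ < r - 1) ∧
    ∀ (N : ℕ) (b : ℕ → 𝕜),
      Ex N b (fun u => ‖u‖ ^ r) ≤ (κ * ∑ n ∈ range N, ‖b n‖ ^ 2) ^ (r / 2) := by
  -- the degenerate case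
  have hzero : ∀ (κ : ℝ) (N : ℕ) (b : ℕ → 𝕜), ∑ n ∈ range N, ‖b n‖ ^ 2 = 0 →
      Ex N b (fun u => ‖u‖ ^ r) ≤ (κ * ∑ n ∈ range N, ‖b n‖ ^ 2) ^ (r / 2) := by
    intro κ N b h
    have h0 : ∀ n < N, b n = (fun _ => (0 : 𝕜)) n := by
      intro n hn
      have := (Finset.sum_eq_zero_iff_of_nonneg (fun i _ => by positivity)).1 h n
        (Finset.mem_range.2 hn)
      simpa using this
    rw [Ex_congr N b _ _ h0, h, mul_zero, Real.zero_rpow (by linarith)]
    have : ∀ M : ℕ, ∀ F : 𝕜 → ℝ, Ex M (fun _ => (0 : 𝕜)) F = F 0 := by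
      intro M
      induction M with
      | zero => intro F; rfl
      | succ M ih =>
        intro F
        simp only [Ex]
        rw [ih]
        simp
    rw [this, norm_zero, Real.zero_rpow (by linarith)]
  by_cases h4 : r ≤ 4
  · refine ⟨3 ^ (1 - 2 / r), ?_, ?_, ?_, ?_⟩
    · exact Real.one_le_rpow (by norm_num) (by
        have : 2 / r ≤ 1 := by rw [div_le_one (by linarith)]; exact hr
        linarith)
    · have hx : 0 ≤ 1 - 2 / r := by
        have : 2 / r ≤ 1 := by rw [div_le_one (by linarith)]; exact hr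
        linarith
      have h5 := rpow_one_add_le_one_add_mul_self (s := 2) (p := 1 - 2 / r) (by norm_num) hx (by
        have : 0 < 2 / r := by positivity
        linarith)
      rw [show (1 : ℝ) + 2 = 3 by norm_num] at h5
      refine h5.trans ?_
      have h6 : 1 + (1 - 2 / r) * 2 = 3 - 4 / r := by ring
      rw [h6]
      have h7 : (r - 2) * (r - 2) ≥ 0 := by nlinarith
      have h8 : 4 - r ≤ 4 / r := by rw [le_div_iff₀ (by linarith)]; nlinarith
      linarith
    · intro h2r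
      have hx : 0 ≤ 1 - 2 / r := by
        have : 2 / r ≤ 1 := by rw [div_le_one (by linarith)]; exact hr
        linarith
      have h5 := rpow_one_add_le_one_add_mul_self (s := 2) (p := 1 - 2 / r) (by norm_num) hx (by
        have : 0 < 2 / r := by positivity
        linarith)
      rw [show (1 : ℝ) + 2 = 3 by norm_num] at h5
      refine h5.trans_lt ?_
      have h6 : 1 + (1 - 2 / r) * 2 = 3 - 4 / r := by ring
      rw [h6]
      have h7 : 0 < (r - 2) * (r - 2) := by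
        have : 0 < r - 2 := by linarith
        positivity
      have h8 : 4 - r < 4 / r := by rw [lt_div_iff₀ (by linarith)]; nlinarith
      linarith
    · intro N b
      set σ := ∑ n ∈ range N, ‖b n‖ ^ 2 with hσ
      have hσ0 : 0 ≤ σ := Finset.sum_nonneg fun _ _ => by positivity
      rcases hσ0.eq_or_lt with h0 | h0
      · exact hzero _ N b h0.symm
      have e1 : Ex N b (fun u => ‖u‖ ^ 2) ≤ σ := by
        have := Ex_even N 1 b
        simpa [Am, hσ] using this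
      have e2 : Ex N b (fun u => ‖u‖ ^ 4) ≤ 3 * σ ^ 2 := by
        have := Ex_even N 2 b
        have hA : Am 2 = 3 := by unfold Am; norm_num [Nat.factorial]
        rw [hA] at this
        exact this
      have e3 := Ex_holder N b (fun u => ‖u‖ ^ 2) (fun u => ‖u‖ ^ 4) (fun u => by positivity)
        (fun u => by positivity) h0 (by positivity : 0 < 3 * σ ^ 2)
        (α := (4 - r) / 2) (β := (r - 2) / 2) (by linarith) (by linarith) (by ring) e1 e2
      have e4 : (fun u : 𝕜 => (‖u‖ ^ 2) ^ ((4 - r) / 2) * (‖u‖ ^ 4) ^ ((r - 2) / 2)) =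
          fun u => ‖u‖ ^ r := by
        funext u
        rw [← Real.rpow_natCast, ← Real.rpow_natCast, ← Real.rpow_mul (norm_nonneg _),
          ← Real.rpow_mul (norm_nonneg _), ← Real.rpow_add_of_nonneg (norm_nonneg _)]
        · congr 1; push_cast; ring
        · push_cast; linarith
        · push_cast; linarith
      rw [e4] at e3
      refine e3.trans (le_of_eq ?_)
      rw [Real.mul_rpow (by norm_num) (by positivity), Real.mul_rpow (by positivity) h0.le,
        ← Real.rpow_natCast σ 2, ← Real.rpow_mul h0.le, ← Real.rpow_mul (by norm_num : (0:ℝ) ≤ 3)]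
      have e5 : σ ^ ((4 - r) / 2) * (3 ^ ((r - 2) / 2) * σ ^ ((2 : ℕ) * ((r - 2) / 2))) =
          3 ^ ((r - 2) / 2) * (σ ^ ((4 - r) / 2) * σ ^ (((2 : ℕ) : ℝ) * ((r - 2) / 2))) := by ring
      rw [e5, ← Real.rpow_add h0]
      congr 2
      · field_simp
      · push_cast; ring
  · push Not at h4
    -- `m - 1 < r / 2 ≤ m`
    obtain ⟨m, hm1, hm2⟩ : ∃ m : ℕ, r / 2 ≤ m ∧ (m : ℝ) < r / 2 + 1 :=
      ⟨⌈r / 2⌉₊, Nat.le_ceil _, Nat.ceil_lt_add_one (by linarith)⟩
    have hm3 : 3 ≤ m := by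
      have : (2 : ℝ) < m := by linarith
      have : 2 < m := by exact_mod_cast this
      omega
    have hm3' : (3 : ℝ) ≤ m := by exact_mod_cast hm3
    have hlt : (m : ℝ) < r - 1 := by linarith
    refine ⟨m, by linarith, hlt.le, fun _ => hlt, ?_⟩
    intro N b
    set σ := ∑ n ∈ range N, ‖b n‖ ^ 2 with hσ
    have hσ0 : 0 ≤ σ := Finset.sum_nonneg fun _ _ => by positivity
    rcases hσ0.eq_or_lt with h0 | h0
    · exact hzero _ N b h0.symm
    have e1 : Ex N b (fun _ => (1 : ℝ)) ≤ 1 := (Ex_const N b 1).le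
    have e2 : Ex N b (fun u => ‖u‖ ^ (2 * m)) ≤ (m * σ) ^ m := by
      refine (Ex_even N m b).trans ?_
      rw [mul_pow]
      gcongr
      exact Am_le m
    have e3 := Ex_holder N b (fun _ => (1 : ℝ)) (fun u => ‖u‖ ^ (2 * m)) (fun u => by positivity)
      (fun u => by positivity) one_pos (by positivity : 0 < (m * σ) ^ m)
      (α := 1 - r / (2 * m)) (β := r / (2 * m)) (by
        have : r / (2 * m) ≤ 1 := by
          rw [div_le_one (by positivity)]; linarith
        linarith) (by positivity) (by ring) e1 e2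
    have e4 : (fun u : 𝕜 => (1 : ℝ) ^ (1 - r / (2 * m)) * (‖u‖ ^ (2 * m)) ^ (r / (2 * m))) =
        fun u => ‖u‖ ^ r := by
      funext u
      rw [Real.one_rpow, one_mul, ← Real.rpow_natCast, ← Real.rpow_mul (norm_nonneg _)]
      congr 1
      push_cast
      field_simp
    rw [e4, Real.one_rpow, one_mul] at e3
    refine e3.trans (le_of_eq ?_)
    rw [← Real.rpow_natCast, ← Real.rpow_mul (by positivity)]
    congr 1
    field_simp

end Pool.Agent.L0h84.WM
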