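import Mathlib
import Pool.Agent.L0h84.WM.Abs
import Pool.Agent.L0h84.WM.Ex
import Pool.Agent.L0h84.WM.Dig

/-! The spaces `L_r[0,1]` carry the data of the abstract scheme. -/

namespace Pool.Agent.L0h84.WM

open MeasureTheory Filter Set
open scoped ENNReal

variable (𝕜 : Type*) [RCLike 𝕜] (r : ℝ≥0∞) [Fact (1 ≤ r)]

/-- Rademacher functions. -/
noncomputable def rh (n : ℕ) : Lp 𝕜 r mu := (UU 𝕜 r)^[n] (rh0 𝕜 r)

lemma UU_rh (n : ℕ) : UU 𝕜 r (rh 𝕜 r n) = rh 𝕜 r (n + 1) := by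
  unfold rh
  rw [Function.iterate_succ_apply']

lemma UU_sum (a : 𝕜) (b : ℕ → 𝕜) (N : ℕ) :
    UU 𝕜 r (a • on 𝕜 r + ∑ n ∈ Finset.range N, b n • rh 𝕜 r n) =
      a • on 𝕜 r + ∑ n ∈ Finset.range N, b n • rh 𝕜 r (n + 1) := by
  rw [map_add, map_smul, UU_on, map_sum]
  congr 1
  refine Finset.sum_congr rfl fun n _ => ?_
  rw [map_smul, UU_rh]

variable {r}

lemma norm_Ex (hr : r ≠ ∞) (N : ℕ) : ∀ (a : 𝕜) (b : ℕ → 𝕜),
    ‖a • on 𝕜 r + ∑ n ∈ Finset.range N, b n • rh 𝕜 r n‖ ^ r.toReal =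
      Ex N b (fun u => ‖a + u‖ ^ r.toReal) := by
  induction N with
  | zero =>
    intro a b
    simp only [Finset.range_zero, Finset.sum_empty, add_zero, Ex]
    rw [norm_smul, norm_on 𝕜 r hr, mul_one]
  | succ N ih =>
    intro a b
    have h1 : a • on 𝕜 r + ∑ n ∈ Finset.range (N + 1), b n • rh 𝕜 r n =
        b 0 • rh0 𝕜 r + UU 𝕜 r (a • on 𝕜 r + ∑ n ∈ Finset.range N, b (n + 1) • rh 𝕜 r n) := by
      rw [Finset.sum_range_succ', UU_sum 𝕜 r a (fun n => b (n + 1)) N]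
      have : rh 𝕜 r 0 = rh0 𝕜 r := rfl
      rw [this]
      abel
    rw [h1, norm_split 𝕜 r hr]
    have h2 : a • on 𝕜 r + ∑ n ∈ Finset.range N, b (n + 1) • rh 𝕜 r n + b 0 • on 𝕜 r =
        (a + b 0) • on 𝕜 r + ∑ n ∈ Finset.range N, (fun n => b (n + 1)) n • rh 𝕜 r n := by
      rw [add_smul]; abel
    have h3 : a • on 𝕜 r + ∑ n ∈ Finset.range N, b (n + 1) • rh 𝕜 r n - b 0 • on 𝕜 r =
        (a - b 0) • on 𝕜 r + ∑ n ∈ Finset.range N, (fun n => b (n + 1)) n • rh 𝕜 r n := by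
      rw [sub_smul]; abel
    rw [h2, h3, ih, ih]
    simp only [Ex]
    rw [← Ex_add, div_eq_inv_mul, ← Ex_mul]
    congr 1
    funext u
    rw [show a + b 0 + u = a + (u + b 0) by ring, show a - b 0 + u = a + (u - b 0) by ring]
    ring

lemma pos_toReal (hr : r ≠ ∞) : 0 < r.toReal :=
  ENNReal.toReal_pos (lt_of_lt_of_le one_pos (Fact.out : 1 ≤ r)).ne' hr

lemma rh_khin (hr : r ≠ ∞) {κ : ℝ} (hκ : 0 ≤ κ)
    (hk : ∀ (N : ℕ) (b : ℕ → 𝕜), Ex N b (fun u => ‖u‖ ^ r.toReal) ≤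
      (κ * ∑ n ∈ Finset.range N, ‖b n‖ ^ 2) ^ (r.toReal / 2)) (S : Finset ℕ) (b : ℕ → 𝕜) :
    ‖∑ n ∈ S, b n • rh 𝕜 r n‖ ≤ √κ * √(∑ n ∈ S, ‖b n‖ ^ 2) := by
  classical
  have h0 := pos_toReal hr
  obtain ⟨N, hN⟩ : ∃ N, S ⊆ Finset.range N := by
    obtain ⟨N, hN⟩ := S.exists_nat_subset_range
    exact ⟨N, hN⟩
  set b' : ℕ → 𝕜 := fun n => if n ∈ S then b n else 0 with hb'
  have h1 : ∑ n ∈ S, b n • rh 𝕜 r n = (0 : 𝕜) • on 𝕜 r + ∑ n ∈ Finset.range N, b' n • rh 𝕜 r n := by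
    rw [zero_smul, zero_add, ← Finset.sum_subset hN]
    · exact Finset.sum_congr rfl fun n hn => by simp [hb', hn]
    · intro n _ hn; simp [hb', hn]
  have h2 : ∑ n ∈ S, ‖b n‖ ^ 2 = ∑ n ∈ Finset.range N, ‖b' n‖ ^ 2 := by
    rw [← Finset.sum_subset hN]
    · exact Finset.sum_congr rfl fun n hn => by simp [hb', hn]
    · intro n _ hn; simp [hb', hn]
  have h3 := norm_Ex 𝕜 hr N 0 b'
  simp only [zero_add] at h3
  rw [← Real.sqrt_mul hκ, h2]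
  rw [h1]
  have h5 : 0 ≤ κ * ∑ n ∈ Finset.range N, ‖b' n‖ ^ 2 :=
    mul_nonneg hκ (Finset.sum_nonneg fun _ _ => by positivity)
  have h4 : ‖(0 : 𝕜) • on 𝕜 r + ∑ n ∈ Finset.range N, b' n • rh 𝕜 r n‖ ^ r.toReal ≤
      (√(κ * ∑ n ∈ Finset.range N, ‖b' n‖ ^ 2)) ^ r.toReal := by
    rw [show (0 : 𝕜) • on 𝕜 r + ∑ n ∈ Finset.range N, b' n • rh 𝕜 r n =
      (0 : 𝕜) • on 𝕜 r + ∑ n ∈ Finset.range N, b' n • rh 𝕜 r n from rfl]
    have h6 : ‖(0 : 𝕜) • on 𝕜 r + ∑ n ∈ Finset.range N, b' n • rh 𝕜 r n‖ ^ r.toReal =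
        Ex N b' fun u => ‖u‖ ^ r.toReal := by
      rw [norm_Ex 𝕜 hr N 0 b']
      simp only [zero_add]
    rw [h6]
    refine (hk N b').trans (le_of_eq ?_)
    rw [Real.sqrt_eq_rpow, ← Real.rpow_mul h5]
    congr 1
    ring
  exact (Real.rpow_le_rpow_iff (norm_nonneg _) (Real.sqrt_nonneg _) h0).1 h4

lemma rh_flip (hr : r ≠ ∞) (N : ℕ) (a : 𝕜) (b : ℕ → 𝕜) (m : ℕ) (hm : m < N) :
    ‖a • on 𝕜 r + ∑ n ∈ Finset.range N, b n • rh 𝕜 r n - (2 : 𝕜) • b m • rh 𝕜 r m‖ =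
      ‖a • on 𝕜 r + ∑ n ∈ Finset.range N, b n • rh 𝕜 r n‖ := by
  have h0 := pos_toReal hr
  have h1 : a • on 𝕜 r + ∑ n ∈ Finset.range N, b n • rh 𝕜 r n - (2 : 𝕜) • b m • rh 𝕜 r m =
      a • on 𝕜 r + ∑ n ∈ Finset.range N, (Function.update b m (-b m)) n • rh 𝕜 r n := by
    rw [← Finset.add_sum_erase _ _ (Finset.mem_range.2 hm),
      ← Finset.add_sum_erase (Finset.range N) (fun n => (Function.update b m (-b m)) n • rh 𝕜 r n)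
        (Finset.mem_range.2 hm)]
    have h2 : ∑ n ∈ (Finset.range N).erase m, (Function.update b m (-b m)) n • rh 𝕜 r n =
        ∑ n ∈ (Finset.range N).erase m, b n • rh 𝕜 r n :=
      Finset.sum_congr rfl fun n hn => by
        rw [Function.update_of_ne (Finset.ne_of_mem_erase hn)]
    rw [h2, Function.update_self, two_smul, neg_smul]
    abel
  have h3 : ‖a • on 𝕜 r + ∑ n ∈ Finset.range N, b n • rh 𝕜 r n - (2 : 𝕜) • b m • rh 𝕜 r m‖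
      ^ r.toReal = ‖a • on 𝕜 r + ∑ n ∈ Finset.range N, b n • rh 𝕜 r n‖ ^ r.toReal := by
    rw [h1, norm_Ex 𝕜 hr, norm_Ex 𝕜 hr, Ex_flip]
  exact (Real.rpow_left_inj (norm_nonneg _) (norm_nonneg _) h0.ne').1 h3

lemma norm_rh (hr : r ≠ ∞) (n : ℕ) : ‖rh 𝕜 r n‖ = 1 := by
  have h0 := pos_toReal hr
  induction n with
  | zero =>
    have h1 := norm_split 𝕜 r hr 1 0
    simp only [map_zero, add_zero, one_smul, zero_add, zero_sub, norm_neg, norm_on 𝕜 r hr,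
      Real.one_rpow] at h1
    have h2 : ‖rh0 𝕜 r‖ ^ r.toReal = 1 ^ r.toReal := by rw [h1, Real.one_rpow]; norm_num
    exact (Real.rpow_left_inj (norm_nonneg _) zero_le_one h0.ne').1 h2
  | succ n ih => rw [← UU_rh, LinearIsometry.norm_map, ih]

lemma norm_rpow_eq (hr : r ≠ ∞) (f : Lp 𝕜 r mu) :
    ‖f‖ ^ r.toReal = ∫ x, ‖f x‖ ^ r.toReal ∂mu := by
  have h0 := pos_toReal hr
  have h1 : r ≠ 0 := (lt_of_lt_of_le one_pos (Fact.out : 1 ≤ r)).ne'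
  have h2 := (Lp.memLp f).eLpNorm_eq_integral_rpow_norm h1 hr
  have h3 : 0 ≤ ∫ x, ‖f x‖ ^ r.toReal ∂mu := integral_nonneg fun x => by positivity
  rw [Lp.norm_def, h2, ENNReal.toReal_ofReal (by positivity), ← Real.rpow_mul h3,
    inv_mul_cancel₀ h0.ne', Real.rpow_one]

lemma integrable_rpow (hr : r ≠ ∞) (f : Lp 𝕜 r mu) :
    Integrable (fun x => ‖f x‖ ^ r.toReal) mu := by
  have h1 : r ≠ 0 := (lt_of_lt_of_le one_pos (Fact.out : 1 ≤ r)).ne'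
  exact (Lp.memLp f).integrable_norm_rpow h1 hr

/-- Strict convexity of `t ↦ ‖t‖ ^ r` on the scalars. -/
lemma scal_strict {ρ : ℝ} (hρ : 1 < ρ) {s : ℝ} (hs : 0 < s) (hs1 : s < 1) (u v : 𝕜) :
    ‖(s : 𝕜) * u + ((1 - s : ℝ) : 𝕜) * v‖ ^ ρ ≤ s * ‖u‖ ^ ρ + (1 - s) * ‖v‖ ^ ρ ∧
      (u ≠ v → ‖(s : 𝕜) * u + ((1 - s : ℝ) : 𝕜) * v‖ ^ ρ < s * ‖u‖ ^ ρ + (1 - s) * ‖v‖ ^ ρ) := by
  have h1s : 0 < 1 - s := by linarith
  have hn : ‖(s : 𝕜) * u + ((1 - s : ℝ) : 𝕜) * v‖ ≤ s * ‖u‖ + (1 - s) * ‖v‖ := by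
    refine (norm_add_le _ _).trans (le_of_eq ?_)
    rw [norm_mul, norm_mul, RCLike.norm_ofReal, RCLike.norm_ofReal, abs_of_pos hs, abs_of_pos h1s]
  have hc := (strictConvexOn_rpow hρ)
  have h2 : (s * ‖u‖ + (1 - s) * ‖v‖) ^ ρ ≤ s * ‖u‖ ^ ρ + (1 - s) * ‖v‖ ^ ρ := by
    have := hc.convexOn.2 (Set.mem_Ici.2 (norm_nonneg u)) (Set.mem_Ici.2 (norm_nonneg v)) hs.le
      h1s.le (by ring)
    simpa using this
  refine ⟨(Real.rpow_le_rpow (norm_nonneg _) hn (by linarith)).trans h2, fun huv => ?_⟩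
  by_cases h : ‖u‖ = ‖v‖
  · have h3 : ‖(s : 𝕜) * u + ((1 - s : ℝ) : 𝕜) * v‖ < s * ‖u‖ + (1 - s) * ‖v‖ := by
      have h4 : ‖s • u + (1 - s) • v‖ < ‖u‖ :=
        norm_combo_lt_of_ne le_rfl h.ge huv hs h1s (by ring)
      have h5 : (s : 𝕜) * u + ((1 - s : ℝ) : 𝕜) * v = s • u + (1 - s) • v := by
        rw [RCLike.real_smul_eq_coe_mul, RCLike.real_smul_eq_coe_mul]
      rw [h5, ← h]
      linarith
    exact (Real.rpow_lt_rpow (norm_nonneg _) h3 (by linarith)).trans_le h2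
  · have := hc.2 (Set.mem_Ici.2 (norm_nonneg u)) (Set.mem_Ici.2 (norm_nonneg v)) h hs h1s (by ring)
    simp only [smul_eq_mul] at this
    exact (Real.rpow_le_rpow (norm_nonneg _) hn (by linarith)).trans_lt this

lemma Lp_strict (hr : r ≠ ∞) (hr1 : 1 < r.toReal) (x y : Lp 𝕜 r mu) (hxy : x ≠ y)
    (hn : ‖x‖ = ‖y‖) (s : ℝ) (hs : 0 < s) (hs1 : s < 1) :
    ‖(s : 𝕜) • x + ((1 - s : ℝ) : 𝕜) • y‖ < ‖x‖ := by
  have h0 := pos_toReal hr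
  set z := (s : 𝕜) • x + ((1 - s : ℝ) : 𝕜) • y with hz
  have hzc : ∀ᵐ t ∂mu, z t = (s : 𝕜) * x t + ((1 - s : ℝ) : 𝕜) * y t := by
    filter_upwards [Lp.coeFn_add ((s : 𝕜) • x) (((1 - s : ℝ) : 𝕜) • y),
      Lp.coeFn_smul (s : 𝕜) x, Lp.coeFn_smul ((1 - s : ℝ) : 𝕜) y] with t h1 h2 h3
    rw [hz, h1, Pi.add_apply, h2, h3]
    rfl
  have hint : Integrable (fun t => s * ‖x t‖ ^ r.toReal + (1 - s) * ‖y t‖ ^ r.toReal) mu :=
    ((integrable_rpow 𝕜 hr x).const_mul _).add ((integrable_rpow 𝕜 hr y).const_mul _)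
  have key : ‖z‖ ^ r.toReal < ‖x‖ ^ r.toReal := by
    have e1 : ‖x‖ ^ r.toReal =
        ∫ t, (s * ‖x t‖ ^ r.toReal + (1 - s) * ‖y t‖ ^ r.toReal) ∂mu := by
      rw [integral_add ((integrable_rpow 𝕜 hr x).const_mul _)
        ((integrable_rpow 𝕜 hr y).const_mul _), integral_const_mul, integral_const_mul,
        ← norm_rpow_eq 𝕜 hr, ← norm_rpow_eq 𝕜 hr, hn]
      ring
    rw [e1, norm_rpow_eq 𝕜 hr]
    rw [← sub_pos, ← integral_sub hint (integrable_rpow 𝕜 hr z)]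
    rw [integral_pos_iff_support_of_nonneg_ae]
    · rw [pos_iff_ne_zero]
      intro hzero
      apply hxy
      apply Lp.ext
      have h1 : ∀ᵐ t ∂mu, t ∉ Function.support fun t =>
          s * ‖x t‖ ^ r.toReal + (1 - s) * ‖y t‖ ^ r.toReal - ‖z t‖ ^ r.toReal :=
        measure_eq_zero_iff_ae_notMem.1 hzero
      filter_upwards [h1, hzc] with t ht1 ht2
      by_contra hne
      rw [Function.notMem_support] at ht1
      have := (scal_strict 𝕜 hr1 hs hs1 (x t) (y t)).2 hne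
      rw [← ht2] at this
      linarith
    · filter_upwards [hzc] with t ht
      have := (scal_strict 𝕜 hr1 hs hs1 (x t) (y t)).1
      rw [← ht] at this
      simp only [Pi.zero_apply]
      linarith
    · exact hint.sub (integrable_rpow 𝕜 hr z)
  exact (Real.rpow_lt_rpow_iff (norm_nonneg _) (norm_nonneg _) h0).1 key

/-- The range data on `L_r[0,1]`. -/
noncomputable def rngLp (hr : r ≠ ∞) (hr1 : 1 < r.toReal) {κ : ℝ} (hκ : 1 ≤ κ)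
    (hk : ∀ (N : ℕ) (b : ℕ → 𝕜), Ex N b (fun u => ‖u‖ ^ r.toReal) ≤
      (κ * ∑ n ∈ Finset.range N, ‖b n‖ ^ 2) ^ (r.toReal / 2)) : Rng 𝕜 (Lp 𝕜 r mu) where
  one := on 𝕜 r
  rho := rh 𝕜 r
  U := (UU 𝕜 r).toContinuousLinearMap
  K := √κ
  K0 := Real.sqrt_pos.2 (by linarith)
  norm_one := norm_on 𝕜 r hr
  rho_ne := fun n h => by
    have := norm_rh 𝕜 hr n
    rw [h, norm_zero] at this
    exact zero_ne_one this
  norm_U := fun y => LinearIsometry.norm_map _ _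
  U_one := UU_on 𝕜 r
  U_rho := UU_rh 𝕜 r
  khin := rh_khin 𝕜 hr (by linarith) hk
  flip := rh_flip 𝕜 hr
  strict := Lp_strict 𝕜 hr hr1

section dom

variable (p p' : ℝ≥0∞) [Fact (1 ≤ p)] [Fact (1 ≤ p')] [ENNReal.HolderConjugate p p']

/-- The pairing of `L_p` and `L_p'`. -/
noncomputable def pair : Lp 𝕜 p mu →L[𝕜] Lp 𝕜 p' mu →L[𝕜] 𝕜 :=
  (ContinuousLinearMap.mul 𝕜 𝕜).lpPairing mu p p'

lemma pair_apply (f : Lp 𝕜 p mu) (g : Lp 𝕜 p' mu) : pair 𝕜 p p' f g = ∫ x, f x * g x ∂mu := by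
  unfold pair
  rw [ContinuousLinearMap.lpPairing_eq_integral]
  rfl

lemma pair_le (f : Lp 𝕜 p mu) (g : Lp 𝕜 p' mu) : ‖pair 𝕜 p p' f g‖ ≤ ‖f‖ * ‖g‖ := by
  rw [pair_apply]
  have h1 := ContinuousLinearMap.norm_holder_apply_apply_le (r := 1)
    (ContinuousLinearMap.mul 𝕜 𝕜) f g
  have h2 : ‖ContinuousLinearMap.mul 𝕜 𝕜‖ ≤ 1 := ContinuousLinearMap.opNorm_mul_le 𝕜 𝕜
  have h3 : ‖∫ x, f x * g x ∂mu‖ ≤ ‖(ContinuousLinearMap.mul 𝕜 𝕜).holder 1 f g‖ := by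
    rw [L1.norm_eq_integral_norm]
    have h4 : ∫ x, f x * g x ∂mu = ∫ x, ((ContinuousLinearMap.mul 𝕜 𝕜).holder 1 f g) x ∂mu := by
      refine integral_congr_ae ?_
      filter_upwards [(ContinuousLinearMap.mul 𝕜 𝕜).coeFn_holder (r := 1) f g] with x hx
      rw [hx]
      rfl
    rw [h4]
    exact norm_integral_le_integral_norm _
  calc ‖∫ x, f x * g x ∂mu‖ ≤ ‖ContinuousLinearMap.mul 𝕜 𝕜‖ * ‖f‖ * ‖g‖ := h3.trans h1
    _ ≤ 1 * ‖f‖ * ‖g‖ := by gcongr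
    _ = ‖f‖ * ‖g‖ := by ring

lemma pair_UU (f : Lp 𝕜 p mu) (g : Lp 𝕜 p' mu) :
    pair 𝕜 p p' (UU 𝕜 p f) (UU 𝕜 p' g) = pair 𝕜 p p' f g := by
  rw [pair_apply, pair_apply]
  have h1 : ∫ x, (UU 𝕜 p f) x * (UU 𝕜 p' g) x ∂mu = ∫ x, (fun t => f t * g t) (DD x) ∂mu := by
    refine integral_congr_ae ?_
    filter_upwards [UU_coe 𝕜 p f, UU_coe 𝕜 p' g] with x h1 h2
    rw [h1, h2]
    rfl
  rw [h1]
  have hm : AEStronglyMeasurable (fun t => f t * g t) (mu.map DD) :=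
    ((Lp.stronglyMeasurable f).mul (Lp.stronglyMeasurable g)).aestronglyMeasurable
  rw [← integral_map meas_DD.aemeasurable hm, DD_mp.map_eq]

lemma pair_UU_rh0 (f : Lp 𝕜 p mu) : pair 𝕜 p p' (UU 𝕜 p f) (rh0 𝕜 p') = 0 := by
  rw [pair_apply]
  have h1 : ∫ x, (UU 𝕜 p f) x * (rh0 𝕜 p') x ∂mu = ∫ x, (rr x : 𝕜) * f (DD x) ∂mu := by
    refine integral_congr_ae ?_
    filter_upwards [UU_coe 𝕜 p f, rh0_coe 𝕜 p'] with x h1 h2
    rw [h1, h2, mul_comm]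
    rfl
  rw [h1]
  exact integral_rr ((Lp.memLp f).integrable (Fact.out)) (Lp.stronglyMeasurable f)

lemma pair_rh0_UU (g : Lp 𝕜 p' mu) : pair 𝕜 p p' (rh0 𝕜 p) (UU 𝕜 p' g) = 0 := by
  rw [pair_apply]
  have h1 : ∫ x, (rh0 𝕜 p) x * (UU 𝕜 p' g) x ∂mu = ∫ x, (rr x : 𝕜) * g (DD x) ∂mu := by
    refine integral_congr_ae ?_
    filter_upwards [UU_coe 𝕜 p' g, rh0_coe 𝕜 p] with x h1 h2
    rw [h1, h2]
    rfl
  rw [h1]
  exact integral_rr ((Lp.memLp g).integrable (Fact.out)) (Lp.stronglyMeasurable g)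

lemma pair_rh0_rh0 : pair 𝕜 p p' (rh0 𝕜 p) (rh0 𝕜 p') = 1 := by
  rw [pair_apply]
  have h1 : ∫ x, (rh0 𝕜 p) x * (rh0 𝕜 p') x ∂mu = ∫ _x, (1 : 𝕜) ∂mu := by
    refine integral_congr_ae ?_
    filter_upwards [rh0_coe 𝕜 p, rh0_coe 𝕜 p'] with x h1 h2
    rw [h1, h2]
    unfold rr
    split_ifs <;> simp
  rw [h1]
  simp

lemma pair_on_on : pair 𝕜 p p' (on 𝕜 p) (on 𝕜 p') = 1 := by
  rw [pair_apply]
  have h1 : ∫ x, (on 𝕜 p) x * (on 𝕜 p') x ∂mu = ∫ _x, (1 : 𝕜) ∂mu := by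
    refine integral_congr_ae ?_
    filter_upwards [on_coe 𝕜 p, on_coe 𝕜 p'] with x h1 h2
    rw [h1, h2]
    simp
  rw [h1]
  simp

lemma pair_khin {K : ℝ} (hK : 0 ≤ K) (h : ∀ (S : Finset ℕ) (b : ℕ → 𝕜),
    ‖∑ n ∈ S, b n • rh 𝕜 p' n‖ ≤ K * √(∑ n ∈ S, ‖b n‖ ^ 2)) (S : Finset ℕ) (f : Lp 𝕜 p mu) :
    √(∑ n ∈ S, ‖pair 𝕜 p p' f (rh 𝕜 p' n)‖ ^ 2) ≤ K * ‖f‖ := by
  set c : ℕ → 𝕜 := fun n => pair 𝕜 p p' f (rh 𝕜 p' n) with hc
  set σ := ∑ n ∈ S, ‖c n‖ ^ 2 with hσ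
  have hσ0 : 0 ≤ σ := Finset.sum_nonneg fun _ _ => by positivity
  have h1 : pair 𝕜 p p' f (∑ n ∈ S, (starRingEnd 𝕜) (c n) • rh 𝕜 p' n) = (σ : 𝕜) := by
    rw [map_sum, hσ]
    push_cast
    refine Finset.sum_congr rfl fun n _ => ?_
    rw [map_smul, smul_eq_mul, RCLike.conj_mul]
  have h2 : σ ≤ ‖f‖ * (K * √σ) := by
    have h3 := pair_le 𝕜 p p' f (∑ n ∈ S, (starRingEnd 𝕜) (c n) • rh 𝕜 p' n)
    rw [h1, RCLike.norm_ofReal, abs_of_nonneg hσ0] at h3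
    have h4 := h S (fun n => (starRingEnd 𝕜) (c n))
    simp only [RCLike.norm_conj] at h4
    exact h3.trans (mul_le_mul_of_nonneg_left h4 (norm_nonneg _))
  rcases hσ0.eq_or_lt with h0 | h0
  · rw [← h0, Real.sqrt_zero]; positivity
  · have h5 : 0 < √σ := Real.sqrt_pos.2 h0
    have h6 : √σ * √σ = σ := Real.mul_self_sqrt hσ0
    have h7 : √σ * √σ ≤ (K * ‖f‖) * √σ := by rw [h6]; linarith [h2]
    exact le_of_mul_le_mul_right h7 h5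

/-- The domain data on `L_p[0,1]`. -/
noncomputable def domLp (hp' : p' ≠ ∞) {κ : ℝ} (hκ : 1 ≤ κ)
    (hk : ∀ (N : ℕ) (b : ℕ → 𝕜), Ex N b (fun u => ‖u‖ ^ p'.toReal) ≤
      (κ * ∑ n ∈ Finset.range N, ‖b n‖ ^ 2) ^ (p'.toReal / 2)) : Dom 𝕜 (Lp 𝕜 p mu) where
  E0 := (pair 𝕜 p p').flip (on 𝕜 p')
  phi := fun n => (pair 𝕜 p p').flip (rh 𝕜 p' n)
  U := UU 𝕜 p
  K := √κ
  K0 := Real.sqrt_pos.2 (by linarith)
  norm_E0 := fun f => by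
    rw [ContinuousLinearMap.flip_apply]
    refine (pair_le 𝕜 p p' f (on 𝕜 p')).trans (le_of_eq ?_)
    rw [norm_on 𝕜 p' hp', mul_one]
  norm_U := fun f => LinearIsometry.norm_map _ _
  E0_U := fun f => by
    rw [ContinuousLinearMap.flip_apply, ContinuousLinearMap.flip_apply, ← UU_on 𝕜 p', pair_UU,
      UU_on 𝕜 p']
  phi_zero := fun f => by
    rw [ContinuousLinearMap.flip_apply]
    exact pair_UU_rh0 𝕜 p p' f
  phi_succ := fun n f => by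
    rw [ContinuousLinearMap.flip_apply, ContinuousLinearMap.flip_apply, ← UU_rh, pair_UU]
  khin := fun S f => by
    simp only [ContinuousLinearMap.flip_apply]
    exact pair_khin 𝕜 p p' (Real.sqrt_nonneg _) (rh_khin 𝕜 hp' (by linarith) hk) S f

end dom

end Pool.Agent.L0h84.WM
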