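import Mathlib
import Pool.Agent.L0h84.WM.Inst

/-! The weak maximizing property fails for `(L_p, L_q)`, `1 < p ≤ 2 ≤ q < ∞`, `(p,q) ≠ (2,2)`. -/

namespace Pool.Agent.L0h84.WM

open MeasureTheory Filter Set Topology
open scoped ENNReal

/-- the two-point `r`-mean -/
noncomputable def NN (r ε : ℝ) : ℝ := ((1 + ε) ^ r + (1 - ε) ^ r) / 2

lemma NN_lim (r : ℝ) :
    Tendsto (fun ε => (NN r ε - 1) / ε ^ 2) (𝓝[>] 0) (𝓝 (r * (r - 1) / 2)) := by
  have hsmall : ∀ᶠ ε in 𝓝[>] (0 : ℝ), 0 < ε ∧ ε < 1 := by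
    have : Ioo (0 : ℝ) 1 ∈ 𝓝[>] (0 : ℝ) := Ioo_mem_nhdsGT one_pos
    exact this
  have hd : ∀ s ε : ℝ, -1 < ε → ε < 1 →
      HasDerivAt (fun ε => (1 + ε) ^ s) (s * (1 + ε) ^ (s - 1)) ε := by
    intro s ε h1 h2
    have := ((hasDerivAt_id ε).const_add 1).rpow_const (p := s) (Or.inl (by simp; linarith))
    simpa [mul_comm] using this
  have hd' : ∀ s ε : ℝ, -1 < ε → ε < 1 →
      HasDerivAt (fun ε => (1 - ε) ^ s) (-(s * (1 - ε) ^ (s - 1))) ε := by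
    intro s ε h1 h2
    have := ((hasDerivAt_id ε).const_sub 1).rpow_const (p := s) (Or.inl (by simp; linarith))
    simpa [mul_comm] using this
  refine HasDerivAt.lhopital_zero_nhdsGT
    (f' := fun ε => (r * (1 + ε) ^ (r - 1) + -(r * (1 - ε) ^ (r - 1))) / 2)
    (g' := fun ε => 2 * ε) ?_ ?_ ?_ ?_ ?_ ?_
  · filter_upwards [hsmall] with ε hε
    exact (((hd r ε (by linarith) hε.2).add (hd' r ε (by linarith) hε.2)).div_const 2).sub_const 1
  · filter_upwards with ε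
    simpa using hasDerivAt_pow 2 ε
  · filter_upwards [hsmall] with ε hε
    have := hε.1
    positivity
  · have hc : ContinuousAt (fun ε => NN r ε - 1) 0 := by
      have := ((((hd r 0 (by norm_num) (by norm_num)).add
        (hd' r 0 (by norm_num) (by norm_num))).div_const 2).sub_const 1).continuousAt
      exact this
    have h0 : NN r 0 - 1 = 0 := by simp [NN]
    have := hc.tendsto
    rw [h0] at this
    exact this.mono_left nhdsWithin_le_nhds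
  · have : ContinuousAt (fun ε : ℝ => ε ^ 2) 0 := by fun_prop
    have h := this.tendsto
    norm_num at h
    exact h.mono_left nhdsWithin_le_nhds
  · have h1 : HasDerivAt (fun ε : ℝ => (1 + ε) ^ (r - 1) - (1 - ε) ^ (r - 1)) (2 * (r - 1)) 0 := by
      have := (hd (r - 1) 0 (by norm_num) (by norm_num)).sub
        (hd' (r - 1) 0 (by norm_num) (by norm_num))
      simp only [add_zero, sub_zero, Real.one_rpow, mul_one] at this
      exact this.congr_deriv (by ring)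
    have h2 := h1.tendsto_slope_zero_right
    have h3 := h2.const_mul (r / 4)
    have e : r / 4 * (2 * (r - 1)) = r * (r - 1) / 2 := by ring
    rw [e] at h3
    refine h3.congr' ?_
    filter_upwards [hsmall] with ε hε
    have : ε ≠ 0 := hε.1.ne'
    simp only [zero_add, add_zero, sub_zero, Real.one_rpow, sub_self, smul_eq_mul]
    field_simp
    ring

lemma test {p q c : ℝ} (hp : 1 < p) (hq : 1 < q) (hc : 0 < c)
    (h : p - 1 < c ^ 2 * (q - 1)) : ∃ ε : ℝ, 0 < ε ∧ ε < 1 ∧ c * ε < 1 ∧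
      NN p ε ^ (1 / p) < NN q (c * ε) ^ (1 / q) := by
  -- intermediate slopes
  obtain ⟨δ, hδ1, hδ2⟩ : ∃ δ, p - 1 < δ ∧ δ < c ^ 2 * (q - 1) := exists_between h
  obtain ⟨δ', hδ3, hδ4⟩ : ∃ δ', δ < δ' ∧ δ' < c ^ 2 * (q - 1) := exists_between hδ2
  have l1 := NN_lim p
  have l2 : Tendsto (fun ε => (NN q (c * ε) - 1) / ε ^ 2) (𝓝[>] 0)
      (𝓝 (c ^ 2 * (q * (q - 1) / 2))) := by
    have h1 : Tendsto (fun ε : ℝ => c * ε) (𝓝[>] 0) (𝓝[>] 0) := by
      refine tendsto_nhdsWithin_iff.2 ⟨?_, ?_⟩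
      · have : ContinuousAt (fun ε : ℝ => c * ε) 0 := by fun_prop
        have h := this.tendsto
        rw [mul_zero] at h
        exact h.mono_left nhdsWithin_le_nhds
      · filter_upwards [self_mem_nhdsWithin] with ε hε
        exact mul_pos hc hε
    have h2 := ((NN_lim q).comp h1).const_mul (c ^ 2)
    refine h2.congr' ?_
    filter_upwards [self_mem_nhdsWithin] with ε hε
    have : ε ≠ 0 := (ne_of_gt hε)
    simp only [Function.comp]
    field_simp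
  have hA : p * (p - 1) / 2 < p * δ / 2 := by
    have : p * (p - 1) < p * δ := mul_lt_mul_of_pos_left hδ1 (by linarith)
    linarith
  have hB : q * δ' / 2 < c ^ 2 * (q * (q - 1) / 2) := by
    have : q * δ' < q * (c ^ 2 * (q - 1)) := mul_lt_mul_of_pos_left hδ4 (by linarith)
    linarith
  have e1 := l1.eventually (gt_mem_nhds hA)
  have e2 := l2.eventually (lt_mem_nhds hB)
  have e3 : ∀ᶠ ε in 𝓝[>] (0 : ℝ), 0 < ε ∧ ε < 1 := Ioo_mem_nhdsGT one_pos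
  have e4 : ∀ᶠ ε in 𝓝[>] (0 : ℝ), c * ε < 1 := by
    have : ContinuousAt (fun ε : ℝ => c * ε) 0 := by fun_prop
    have h := this.tendsto
    rw [mul_zero] at h
    exact (h.eventually (gt_mem_nhds one_pos)).filter_mono nhdsWithin_le_nhds
  have e5 : ∀ᶠ ε in 𝓝[>] (0 : ℝ), δ * (1 + q * δ' / 2 * ε ^ 2) < δ' := by
    have : ContinuousAt (fun ε : ℝ => δ * (1 + q * δ' / 2 * ε ^ 2)) 0 := by fun_prop
    have h := this.tendsto
    norm_num at h
    exact (h.eventually (gt_mem_nhds hδ3)).filter_mono nhdsWithin_le_nhds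
  obtain ⟨ε, h1, h2, ⟨h3, h3'⟩, h4, h5⟩ := (e1.and (e2.and (e3.and (e4.and e5)))).exists
  refine ⟨ε, h3, h3', h4, ?_⟩
  have hδ0 : 0 < δ := by linarith
  have hδ0' : 0 < δ' := by linarith
  have hε2 : 0 < ε ^ 2 := by positivity
  rw [div_lt_iff₀ hε2] at h1
  rw [lt_div_iff₀ hε2] at h2
  have hNp : 0 ≤ NN p ε := by
    unfold NN
    have : 0 ≤ (1 + ε) ^ p := Real.rpow_nonneg (by linarith) _
    have : 0 ≤ (1 - ε) ^ p := Real.rpow_nonneg (by linarith) _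
    linarith
  have u1 : NN p ε ^ (1 / p) ≤ Real.exp (δ / 2 * ε ^ 2) := by
    have : NN p ε ≤ Real.exp (p * δ / 2 * ε ^ 2) := by
      have := Real.add_one_le_exp (p * δ / 2 * ε ^ 2)
      linarith
    calc NN p ε ^ (1 / p) ≤ (Real.exp (p * δ / 2 * ε ^ 2)) ^ (1 / p) :=
          Real.rpow_le_rpow hNp this (by positivity)
      _ = Real.exp (δ / 2 * ε ^ 2) := by
          rw [← Real.exp_mul]
          congr 1
          field_simp
  have hpos : 0 < 1 + q * δ' / 2 * ε ^ 2 := by positivity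
  have u2 : Real.exp ((δ' / 2 * ε ^ 2) / (1 + q * δ' / 2 * ε ^ 2)) ≤ NN q (c * ε) ^ (1 / q) := by
    have h6 : 1 + q * δ' / 2 * ε ^ 2 ≤ NN q (c * ε) := by linarith
    calc Real.exp ((δ' / 2 * ε ^ 2) / (1 + q * δ' / 2 * ε ^ 2))
        ≤ (1 + q * δ' / 2 * ε ^ 2) ^ (1 / q) := by
          rw [← Real.exp_log hpos, ← Real.exp_mul, Real.exp_le_exp, Real.exp_log hpos]
          have h7 := Real.one_sub_inv_le_log_of_pos hpos
          have h8 : (δ' / 2 * ε ^ 2) / (1 + q * δ' / 2 * ε ^ 2) =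
              (1 - (1 + q * δ' / 2 * ε ^ 2)⁻¹) * (1 / q) := by
            field_simp
            ring
          rw [h8]
          exact mul_le_mul_of_nonneg_right h7 (by positivity)
      _ ≤ NN q (c * ε) ^ (1 / q) := Real.rpow_le_rpow hpos.le h6 (by positivity)
  refine u1.trans_lt (lt_of_lt_of_le ?_ u2)
  rw [Real.exp_lt_exp, lt_div_iff₀ hpos]
  have : δ * (1 + q * δ' / 2 * ε ^ 2) * (ε ^ 2 / 2) < δ' * (ε ^ 2 / 2) :=
    mul_lt_mul_of_pos_right h5 (by positivity)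
  linarith

variable (𝕜 : Type*) [RCLike 𝕜]

lemma norm_test {r : ℝ≥0∞} [Fact (1 ≤ r)] (hr : r ≠ ∞) {ε : ℝ} (h0 : 0 < ε) (h1 : ε < 1) :
    ‖on 𝕜 r + (ε : 𝕜) • rh0 𝕜 r‖ = NN r.toReal ε ^ (1 / r.toReal) := by
  have hr0 := pos_toReal hr
  have h2 := norm_split 𝕜 r hr (ε : 𝕜) (on 𝕜 r)
  have e1 : ‖on 𝕜 r + (ε : 𝕜) • on 𝕜 r‖ = 1 + ε := by
    have : on 𝕜 r + (ε : 𝕜) • on 𝕜 r = ((1 + ε : ℝ) : 𝕜) • on 𝕜 r := by
      push_cast; rw [add_smul, one_smul]
    rw [this, norm_smul, norm_on 𝕜 r hr, mul_one, RCLike.norm_ofReal, abs_of_pos (by linarith)]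
  have e2 : ‖on 𝕜 r - (ε : 𝕜) • on 𝕜 r‖ = 1 - ε := by
    have : on 𝕜 r - (ε : 𝕜) • on 𝕜 r = ((1 - ε : ℝ) : 𝕜) • on 𝕜 r := by
      push_cast; rw [sub_smul, one_smul]
    rw [this, norm_smul, norm_on 𝕜 r hr, mul_one, RCLike.norm_ofReal, abs_of_pos (by linarith)]
  rw [e1, e2, UU_on, add_comm] at h2
  unfold NN
  rw [← h2, ← Real.rpow_mul (norm_nonneg _), mul_one_div_cancel hr0.ne', Real.rpow_one]

theorem main (p q : ℝ≥0∞) [Fact (1 ≤ p)] [Fact (1 ≤ q)] (hp : 1 < p) (hp2 : p ≤ 2)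
    (hq2 : 2 ≤ q) (hq : q < ∞) (hpq : ¬ (p = 2 ∧ q = 2)) :
    ∃ T : Lp 𝕜 p mu →L[𝕜] Lp 𝕜 q mu, (∃ f : ℕ → Lp 𝕜 p mu, (∀ n, ‖f n‖ = 1) ∧
      Tendsto (fun n => ‖T (f n)‖) atTop (𝓝 ‖T‖) ∧
      ¬ ∀ φ : Lp 𝕜 p mu →L[𝕜] 𝕜, Tendsto (fun n => φ (f n)) atTop (𝓝 0)) ∧
      ¬ ∃ x, ‖x‖ = 1 ∧ ‖T x‖ = ‖T‖ := by
  have hp_top : p ≠ ∞ := (hp2.trans_lt (by norm_num)).ne
  have hq_top : q ≠ ∞ := hq.ne
  have hpr : 1 < p.toReal := by
    rw [← ENNReal.toReal_one]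
    exact (ENNReal.toReal_lt_toReal (by norm_num) hp_top).2 hp
  have hpr2 : p.toReal ≤ 2 := by
    have := (ENNReal.toReal_le_toReal hp_top (by norm_num : (2 : ℝ≥0∞) ≠ ∞)).2 hp2
    simpa using this
  have hqr2 : 2 ≤ q.toReal := by
    have := (ENNReal.toReal_le_toReal (by norm_num : (2 : ℝ≥0∞) ≠ ∞) hq_top).2 hq2
    simpa using this
  set P : ℝ := p.toReal / (p.toReal - 1) with hP
  have hP2 : 2 ≤ P := by
    rw [hP, le_div_iff₀ (by linarith)]; linarith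
  have hconj : p.toReal.HolderConjugate P := Real.holderConjugate_iff_eq_conjExponent hpr |>.2 hP
  have hP1 : P - 1 = 1 / (p.toReal - 1) := by
    have : p.toReal - 1 ≠ 0 := by linarith
    rw [hP]; field_simp; ring
  obtain ⟨p', hp'⟩ : ∃ p' : ℝ≥0∞, p' = ENNReal.ofReal P := ⟨_, rfl⟩
  have hp'r : p'.toReal = P := by rw [hp', ENNReal.toReal_ofReal (by linarith)]
  have hp'_top : p' ≠ ∞ := by rw [hp']; exact ENNReal.ofReal_ne_top
  have : Fact (1 ≤ p') := ⟨by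
    rw [hp', ← ENNReal.ofReal_one]
    exact ENNReal.ofReal_le_ofReal (by linarith)⟩
  have : ENNReal.HolderConjugate p p' := by
    apply ENNReal.HolderConjugate.of_toReal
    rw [hp'r]
    exact hconj
  -- the Khintchine constants
  obtain ⟨κ, k1, k2, k3, k4⟩ := khintchine (𝕜 := 𝕜) q.toReal hqr2
  obtain ⟨κ', k1', k2', k3', k4'⟩ := khintchine (𝕜 := 𝕜) P hP2
  rw [← hp'r] at k4'
  let R : Rng 𝕜 (Lp 𝕜 q mu) := rngLp 𝕜 hq_top (by linarith) k1 k4
  let Q : Dom 𝕜 (Lp 𝕜 p mu) := domLp 𝕜 p p' hp'_top k1' k4'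
  have hRK : R.K = √κ := rfl
  have hQK : Q.K = √κ' := rfl
  set c0 : ℝ := 1 / (√κ * √κ') with hc0
  have hκ : 0 < √κ := Real.sqrt_pos.2 (by linarith)
  have hκ' : 0 < √κ' := Real.sqrt_pos.2 (by linarith)
  have hc0pos : 0 < c0 := by positivity
  have hKK : R.K * (c0 * Q.K) ≤ 1 := by
    rw [hRK, hQK, hc0]
    apply le_of_eq
    field_simp
  have hc2 : c0 ^ 2 = 1 / (κ * κ') := by
    rw [hc0, div_pow, mul_pow, Real.sq_sqrt (by linarith), Real.sq_sqrt (by linarith), one_pow]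
  have hstrict : p.toReal - 1 < c0 ^ 2 * (q.toReal - 1) := by
    have hp1 : 0 < p.toReal - 1 := by linarith
    have hκκ : 0 < κ * κ' := by positivity
    rw [hc2, one_div, inv_mul_eq_div, lt_div_iff₀ hκκ]
    -- (p-1) κ κ' < q - 1
    have a1 : (p.toReal - 1) * κ' ≤ 1 := by
      rw [hP1, le_div_iff₀ hp1] at k2'; linarith
    by_cases hq' : q = 2
    · have hp' : p ≠ 2 := fun h => hpq ⟨h, hq'⟩
      have hplt : p.toReal < 2 := by
        have := (ENNReal.toReal_lt_toReal hp_top (by norm_num : (2 : ℝ≥0∞) ≠ ∞)).2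
          (lt_of_le_of_ne hp2 hp')
        simpa using this
      have hPgt : 2 < P := by
        rw [hP, lt_div_iff₀ hp1]; linarith
      have a2 : (p.toReal - 1) * κ' < 1 := by
        have := k3' hPgt
        rw [hP1, lt_div_iff₀ hp1] at this; linarith
      calc (p.toReal - 1) * (κ * κ') = ((p.toReal - 1) * κ') * κ := by ring
        _ < 1 * κ := mul_lt_mul_of_pos_right a2 (by linarith)
        _ ≤ q.toReal - 1 := by linarith
    · have hqgt : 2 < q.toReal := by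
        have := (ENNReal.toReal_lt_toReal (by norm_num : (2 : ℝ≥0∞) ≠ ∞) hq_top).2
          (lt_of_le_of_ne hq2 (Ne.symm hq'))
        simpa using this
      calc (p.toReal - 1) * (κ * κ') = ((p.toReal - 1) * κ') * κ := by ring
        _ ≤ 1 * κ := mul_le_mul_of_nonneg_right a1 (by linarith)
        _ < q.toReal - 1 := by linarith [k3 hqgt]
  obtain ⟨ε, hε0, hε1, hε2, hε3⟩ := test hpr (by linarith : 1 < q.toReal) hc0pos hstrict
  have hpairon : ∀ n, pair 𝕜 p p' (on 𝕜 p) (rh 𝕜 p' n) = 0 := by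
    intro n
    induction n with
    | zero => rw [← UU_on 𝕜 p]; exact pair_UU_rh0 𝕜 p p' _
    | succ n ih => rw [← UU_on 𝕜 p, ← UU_rh, pair_UU, ih]
  have hpairrh : pair 𝕜 p p' (rh0 𝕜 p) (on 𝕜 p') = 0 := by
    rw [← UU_on 𝕜 p']; exact pair_rh0_UU 𝕜 p p' _
  set f : Lp 𝕜 p mu := on 𝕜 p + (ε : 𝕜) • rh0 𝕜 p with hf
  have f1 : Q.E0 f = 1 := by
    show (pair 𝕜 p p').flip (on 𝕜 p') f = 1
    rw [ContinuousLinearMap.flip_apply, hf, map_add, map_smul, add_apply,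
      smul_apply, pair_on_on, hpairrh, smul_zero, add_zero]
  have f2 : Q.phi 0 f = (ε : 𝕜) := by
    show (pair 𝕜 p p').flip (rh 𝕜 p' 0) f = _
    have h0 : pair 𝕜 p p' (rh0 𝕜 p) (rh 𝕜 p' 0) = 1 := pair_rh0_rh0 𝕜 p p'
    rw [ContinuousLinearMap.flip_apply, hf, map_add, map_smul, add_apply,
      smul_apply, hpairon, h0, zero_add, smul_eq_mul, mul_one]
  have f3 : ∀ n, n ≠ 0 → Q.phi n f = 0 := by
    intro n hn
    obtain ⟨k, rfl⟩ := Nat.exists_eq_succ_of_ne_zero hn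
    show (pair 𝕜 p p').flip (rh 𝕜 p' (k + 1)) f = _
    rw [ContinuousLinearMap.flip_apply, hf, map_add, map_smul, add_apply,
      smul_apply, hpairon, ← UU_rh, pair_rh0_UU, smul_zero, add_zero]
  have hbig : ∃ f, ‖f‖ < ‖Q.E0 f • R.one + ∑' n, ((c0 : 𝕜) * Q.phi n f) • R.rho n‖ := by
    refine ⟨f, ?_⟩
    rw [tsum_eq_single 0 (fun n hn => by rw [f3 n hn, mul_zero, zero_smul]), f1, f2, one_smul]
    have h1 : (R.one : Lp 𝕜 q mu) = on 𝕜 q := rfl
    have h2 : (R.rho 0 : Lp 𝕜 q mu) = rh0 𝕜 q := rfl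
    have h3 : (c0 : 𝕜) * (ε : 𝕜) = ((c0 * ε : ℝ) : 𝕜) := by push_cast; rfl
    rw [h1, h2, h3, norm_test 𝕜 hq_top (by positivity) hε2, hf, norm_test 𝕜 hp_top hε0 hε1]
    exact hε3
  have : Nontrivial (Lp 𝕜 p mu) := ⟨on 𝕜 p, 0, fun h => by
    have := norm_on 𝕜 p hp_top
    rw [h, norm_zero] at this
    exact zero_ne_one this⟩
  obtain ⟨T, ⟨g, g1, g2, g3⟩, hT⟩ := main_abs R Q c0 hc0pos hKK hbig
  exact ⟨T, ⟨g, g1, g2, fun h => g3 (h Q.E0)⟩, hT⟩

end Pool.Agent.L0h84.WM
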